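import Mathlib

/-!
# Rational recursions `x_{n+N} = 1 / ∑ b_i(n) x_{n+i}` with periodic coefficients

In logarithmic coordinates the recursion is nonexpansive for the sup norm. A nonexpansive map with a
bounded orbit has a fixed point, so a bounded solution forces a periodic one, and then all solutions
are bounded.
-/

set_option autoImplicit false

namespace Q201.PR

open Filter Topology

/-- A nonexpansive self-map of `ℝ^N` with a bounded orbit has a fixed point. -/
theorem exists_fixed {N : ℕ} {F : (Fin N → ℝ) → (Fin N → ℝ)} (hF : LipschitzWith 1 F)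
    (p : Fin N → ℝ) (R : ℝ) (hR : ∀ n, ‖F^[n] p‖ ≤ R) : ∃ y, F y = y := by
  have hR0 : 0 ≤ R := (norm_nonneg _).trans (hR 0)
  let c : ℕ → NNReal := fun j => 1 - 1 / ((j : NNReal) + 2)
  have hclt : ∀ j, c j < 1 := by
    intro j
    have h1 : (0 : NNReal) < 1 / ((j : NNReal) + 2) := by positivity
    exact tsub_lt_self one_pos h1
  have hcle : ∀ j, (1 : NNReal) / ((j : NNReal) + 2) ≤ 1 := by
    intro j
    rw [div_le_one (by positivity)]
    calc (1 : NNReal) ≤ 2 := by norm_num
      _ ≤ (j : NNReal) + 2 := le_add_self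
  have hcr : ∀ j, ((c j : NNReal) : ℝ) = 1 - 1 / ((j : ℝ) + 2) := by
    intro j
    show (((1 : NNReal) - 1 / ((j : NNReal) + 2) : NNReal) : ℝ) = _
    rw [NNReal.coe_sub (hcle j)]
    push_cast
    ring
  have hG : ∀ j, ContractingWith (c j) (fun y => (c j : ℝ) • F y) := by
    intro j
    refine ⟨hclt j, LipschitzWith.of_dist_le_mul fun y z => ?_⟩
    rw [dist_smul₀]
    have h1 := hF.dist_le_mul y z
    simp only [NNReal.coe_one, one_mul] at h1
    have h2 : ‖((c j : NNReal) : ℝ)‖ = (c j : ℝ) := by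
      rw [Real.norm_eq_abs, abs_of_nonneg (NNReal.coe_nonneg _)]
    rw [h2]
    exact mul_le_mul_of_nonneg_left h1 (NNReal.coe_nonneg _)
  choose y hy using fun j => (show ∃ y, (fun y => (c j : ℝ) • F y) y = y from
    ⟨_, (hG j).fixedPoint_isFixedPt⟩)
  have hyb : ∀ j, ‖y j‖ ≤ 2 * R := by
    intro j
    have hstep : ∀ n, ‖y j - F^[n] p‖ ≤ (c j : ℝ) ^ n * ‖y j - p‖ + R := by
      intro n
      induction n with
      | zero => simp only [Function.iterate_zero, id_eq, pow_zero, one_mul]; linarith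
      | succ n ih =>
        have e : y j - F^[n + 1] p =
            (c j : ℝ) • (F (y j) - F (F^[n] p)) - (1 - (c j : ℝ)) • F^[n + 1] p := by
          rw [Function.iterate_succ_apply', smul_sub, sub_smul, one_smul]
          have := hy j
          simp only at this
          rw [this]
          abel
        have h1 : ‖F (y j) - F (F^[n] p)‖ ≤ ‖y j - F^[n] p‖ := by
          have := hF.dist_le_mul (y j) (F^[n] p)
          simpa [dist_eq_norm] using this
        have h2 := hR (n + 1)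
        have hc0 : (0 : ℝ) ≤ c j := NNReal.coe_nonneg _
        have hc1 : (0 : ℝ) ≤ 1 - (c j : ℝ) := by
          have := hclt j
          have : ((c j : NNReal) : ℝ) < 1 := by exact_mod_cast this
          linarith
        calc ‖y j - F^[n + 1] p‖
            ≤ ‖(c j : ℝ) • (F (y j) - F (F^[n] p))‖ + ‖(1 - (c j : ℝ)) • F^[n + 1] p‖ := by
              rw [e]; exact norm_sub_le _ _
          _ = (c j : ℝ) * ‖F (y j) - F (F^[n] p)‖ + (1 - (c j : ℝ)) * ‖F^[n + 1] p‖ := by
              rw [norm_smul, norm_smul, Real.norm_of_nonneg hc0, Real.norm_of_nonneg hc1]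
          _ ≤ (c j : ℝ) * ((c j : ℝ) ^ n * ‖y j - p‖ + R) + (1 - (c j : ℝ)) * R := by
              gcongr
              exact h1.trans ih
          _ = (c j : ℝ) ^ (n + 1) * ‖y j - p‖ + R := by ring
    have hb : ∀ n, ‖y j‖ ≤ (c j : ℝ) ^ n * ‖y j - p‖ + 2 * R := by
      intro n
      have h1 : ‖y j‖ ≤ ‖y j - F^[n] p‖ + ‖F^[n] p‖ := by
        calc ‖y j‖ = ‖(y j - F^[n] p) + F^[n] p‖ := by congr 1; abel
          _ ≤ _ := norm_add_le _ _
      have h2 := hstep n
      have h3 := hR n
      linarith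
    have hlim : Tendsto (fun n : ℕ => (c j : ℝ) ^ n * ‖y j - p‖ + 2 * R) atTop
        (𝓝 (0 * ‖y j - p‖ + 2 * R)) := by
      refine ((tendsto_pow_atTop_nhds_zero_of_lt_one (NNReal.coe_nonneg _) ?_).mul_const _).add_const _
      exact_mod_cast hclt j
    have := ge_of_tendsto' hlim hb
    simpa using this
  obtain ⟨z, _, φ, hφ, hz⟩ := (isCompact_closedBall (0 : Fin N → ℝ) (2 * R)).tendsto_subseq
    (fun j => by simpa using hyb j)
  refine ⟨z, ?_⟩
  have h1 : Tendsto (fun j => F (y (φ j))) atTop (𝓝 (F z)) :=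
    (hF.continuous.tendsto z).comp hz
  have h2 : Tendsto (fun j => ((c (φ j) : NNReal) : ℝ)) atTop (𝓝 1) := by
    have h3 : Tendsto (fun j : ℕ => (1 : ℝ) - 1 / ((j : ℝ) + 2)) atTop (𝓝 (1 - 0)) := by
      refine tendsto_const_nhds.sub ?_
      have h4 : Tendsto (fun j : ℕ => ((j : ℝ) + 2)) atTop atTop :=
        tendsto_atTop_add_const_right _ _ tendsto_natCast_atTop_atTop
      exact (tendsto_inv_atTop_zero.comp h4).congr (fun j => by simp)
    rw [sub_zero] at h3
    exact ((h3.comp hφ.tendsto_atTop).congr (fun j => (hcr (φ j)).symm))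
  have h5 : Tendsto (fun j => ((c (φ j) : NNReal) : ℝ) • F (y (φ j))) atTop (𝓝 ((1 : ℝ) • F z)) :=
    h2.smul h1
  have h6 : (fun j => ((c (φ j) : NNReal) : ℝ) • F (y (φ j))) = fun j => y (φ j) := by
    funext j
    exact hy (φ j)
  rw [h6, one_smul] at h5
  exact tendsto_nhds_unique h5 hz

variable {N : ℕ}

/-- Positive solutions of `x_{n+N} = 1 / ∑ b_i(n) x_{n+i}`. -/
def Sol (b : ℕ → Fin N → ℝ) (x : ℕ → ℝ) : Prop :=
  (∀ n, 0 < x n) ∧ ∀ n, x (n + N) = 1 / ∑ i : Fin N, b n i * x (n + i)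

/-- Nonnegative coefficients, not all zero at any time. -/
structure Good (b : ℕ → Fin N → ℝ) : Prop where
  nonneg : ∀ n i, 0 ≤ b n i
  pos : ∀ n, ∃ i, 0 < b n i

theorem Good.sum_pos {b : ℕ → Fin N → ℝ} (hb : Good b) (n : ℕ) {u : Fin N → ℝ}
    (hu : ∀ i, 0 < u i) : 0 < ∑ i : Fin N, b n i * u i := by
  obtain ⟨i, hi⟩ := hb.pos n
  exact Finset.sum_pos' (fun j _ => mul_nonneg (hb.nonneg n j) (hu j).le)
    ⟨i, Finset.mem_univ i, mul_pos hi (hu i)⟩

/-- The next logarithm. -/
noncomputable def g (b : ℕ → Fin N → ℝ) (n : ℕ) (y : Fin N → ℝ) : ℝ :=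
  -Real.log (∑ i : Fin N, b n i * Real.exp (y i))

theorem g_le {b : ℕ → Fin N → ℝ} (hb : Good b) (n : ℕ) (y z : Fin N → ℝ) :
    g b n y ≤ g b n z + dist y z := by
  unfold g
  have h1 : 0 < ∑ i : Fin N, b n i * Real.exp (z i) := hb.sum_pos n fun i => Real.exp_pos _
  have h2 : 0 < ∑ i : Fin N, b n i * Real.exp (y i) := hb.sum_pos n fun i => Real.exp_pos _
  have h3 : ∑ i : Fin N, b n i * Real.exp (z i) ≤
      Real.exp (dist y z) * ∑ i : Fin N, b n i * Real.exp (y i) := by
    rw [Finset.mul_sum]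
    refine Finset.sum_le_sum fun i _ => ?_
    have h4 : z i ≤ dist y z + y i := by
      have := dist_le_pi_dist y z i
      rw [Real.dist_eq] at this
      have := neg_abs_le (y i - z i)
      linarith
    calc b n i * Real.exp (z i) ≤ b n i * Real.exp (dist y z + y i) :=
          mul_le_mul_of_nonneg_left (Real.exp_le_exp.mpr h4) (hb.nonneg n i)
      _ = Real.exp (dist y z) * (b n i * Real.exp (y i)) := by rw [Real.exp_add]; ring
  have h5 := Real.log_le_log h1 h3
  rw [Real.log_mul (Real.exp_pos _).ne' h2.ne', Real.log_exp] at h5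
  linarith

theorem g_lip {b : ℕ → Fin N → ℝ} (hb : Good b) (n : ℕ) (y z : Fin N → ℝ) :
    dist (g b n y) (g b n z) ≤ dist y z := by
  rw [Real.dist_eq, abs_le]
  have h1 := g_le hb n y z
  have h2 := g_le hb n z y
  rw [dist_comm z y] at h2
  constructor <;> linarith

/-- The window map. -/
noncomputable def W (b : ℕ → Fin N → ℝ) (n : ℕ) (y : Fin N → ℝ) : Fin N → ℝ :=
  fun i => if h : (i : ℕ) + 1 < N then y ⟨i + 1, h⟩ else g b n y

theorem W_lip {b : ℕ → Fin N → ℝ} (hb : Good b) (n : ℕ) : LipschitzWith 1 (W b n) := by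
  refine LipschitzWith.of_dist_le_mul fun y z => ?_
  rw [NNReal.coe_one, one_mul, dist_pi_le_iff dist_nonneg]
  intro i
  unfold W
  by_cases h : (i : ℕ) + 1 < N
  · rw [dif_pos h, dif_pos h]
    exact dist_le_pi_dist y z _
  · rw [dif_neg h, dif_neg h]
    exact g_lip hb n y z

/-- The composition of the first `m` window maps. -/
noncomputable def T (b : ℕ → Fin N → ℝ) : ℕ → (Fin N → ℝ) → (Fin N → ℝ)
  | 0 => id
  | m + 1 => fun y => W b m (T b m y)

theorem T_lip {b : ℕ → Fin N → ℝ} (hb : Good b) (m : ℕ) : LipschitzWith 1 (T b m) := by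
  induction m with
  | zero => exact LipschitzWith.id
  | succ m ih =>
    have h := (W_lip hb m).comp ih
    rw [one_mul] at h
    exact h

theorem W_add {b : ℕ → Fin N → ℝ} {k : ℕ} (hper : ∀ n i, b (n + k) i = b n i) (m : ℕ) :
    W b (m + k) = W b m := by
  funext y i
  unfold W g
  simp only [hper]

theorem T_add {b : ℕ → Fin N → ℝ} {k : ℕ} (hper : ∀ n i, b (n + k) i = b n i) (m : ℕ)
    (y : Fin N → ℝ) : T b (m + k) y = T b m (T b k y) := by
  induction m with
  | zero => simp [T]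
  | succ m ih =>
    have e : m + 1 + k = (m + k) + 1 := by ring
    rw [e]
    show W b (m + k) (T b (m + k) y) = W b m (T b m (T b k y))
    rw [ih, W_add hper]

theorem T_mul {b : ℕ → Fin N → ℝ} {k : ℕ} (hper : ∀ n i, b (n + k) i = b n i) (j : ℕ)
    (y : Fin N → ℝ) : (T b k)^[j] y = T b (j * k) y := by
  induction j generalizing y with
  | zero => simp [T]
  | succ j ih =>
    rw [Function.iterate_succ_apply, ih, add_mul, one_mul, T_add hper]

/-- The sequence of a starting window. -/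
noncomputable def seq (b : ℕ → Fin N → ℝ) (hN : 0 < N) (y : Fin N → ℝ) (n : ℕ) : ℝ :=
  Real.exp (T b n y ⟨0, hN⟩)

theorem T_shift (b : ℕ → Fin N → ℝ) (hN : 0 < N) (y : Fin N → ℝ) (i : ℕ) (hi : i < N) (n : ℕ) :
    T b n y ⟨i, hi⟩ = T b (n + i) y ⟨0, hN⟩ := by
  induction i generalizing n with
  | zero => rfl
  | succ i ih =>
    have h1 := ih (by omega) (n + 1)
    have h2 : T b (n + 1) y ⟨i, by omega⟩ = T b n y ⟨i + 1, hi⟩ := by
      show W b n (T b n y) ⟨i, _⟩ = _
      unfold W
      rw [dif_pos (show i + 1 < N from hi)]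
    rw [← h2, h1]
    have e : n + 1 + i = n + (i + 1) := by ring
    rw [e]

theorem sol_seq {b : ℕ → Fin N → ℝ} (hb : Good b) (hN : 0 < N) (y : Fin N → ℝ) :
    Sol b (seq b hN y) := by
  refine ⟨fun n => Real.exp_pos _, fun n => ?_⟩
  have h1 : T b (n + N) y ⟨0, hN⟩ = g b n (T b n y) := by
    have h2 := T_shift b hN y (N - 1) (by omega) (n + 1)
    have e : n + 1 + (N - 1) = n + N := by omega
    rw [e] at h2
    rw [← h2]
    show W b n (T b n y) ⟨N - 1, _⟩ = _
    unfold W
    rw [dif_neg (by simp only; omega)]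
  show Real.exp (T b (n + N) y ⟨0, hN⟩) = _
  rw [h1]
  unfold g
  rw [Real.exp_neg, Real.exp_log (hb.sum_pos n fun i => Real.exp_pos _), one_div]
  congr 1
  refine Finset.sum_congr rfl fun i _ => ?_
  rw [T_shift b hN y i i.2 n]
  rfl

/-- The window of logarithms of a sequence. -/
noncomputable def win (N : ℕ) (x : ℕ → ℝ) (n : ℕ) : Fin N → ℝ := fun i => Real.log (x (n + i))

theorem win_succ {b : ℕ → Fin N → ℝ} {x : ℕ → ℝ} (hx : Sol b x) (n : ℕ) :
    win N x (n + 1) = W b n (win N x n) := by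
  funext i
  unfold win W
  by_cases h : (i : ℕ) + 1 < N
  · rw [dif_pos h]
    simp only
    congr 2
    ring
  · rw [dif_neg h]
    have e : n + 1 + (i : ℕ) = n + N := by have := i.2; omega
    rw [e, hx.2 n]
    unfold g
    rw [one_div, Real.log_inv]
    congr 2
    refine Finset.sum_congr rfl fun j _ => ?_
    rw [Real.exp_log (hx.1 _)]

theorem win_eq {b : ℕ → Fin N → ℝ} {x : ℕ → ℝ} (hx : Sol b x) (n : ℕ) :
    win N x n = T b n (win N x 0) := by
  induction n with
  | zero => rfl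
  | succ n ih => rw [win_succ hx, ih]; rfl

/-- Boundedness above. -/
def Bdd (x : ℕ → ℝ) : Prop := ∃ M, ∀ n, x n ≤ M

/-- If one solution is bounded then all are. -/
theorem bdd_of_bdd {b : ℕ → Fin N → ℝ} (hb : Good b) (hN : 0 < N) {x z : ℕ → ℝ} (hx : Sol b x)
    (hz : Sol b z) (h : Bdd x) : Bdd z := by
  obtain ⟨M, hM⟩ := h
  refine ⟨Real.exp (dist (win N z 0) (win N x 0)) * M, fun n => ?_⟩
  have h1 : dist (win N z n) (win N x n) ≤ dist (win N z 0) (win N x 0) := by
    rw [win_eq hz, win_eq hx]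
    have := (T_lip hb n).dist_le_mul (win N z 0) (win N x 0)
    simpa using this
  have h2 := (dist_le_pi_dist (win N z n) (win N x n) ⟨0, hN⟩).trans h1
  have h3 : Real.log (z n) ≤ dist (win N z 0) (win N x 0) + Real.log (x n) := by
    rw [Real.dist_eq] at h2
    have h4 := le_abs_self (win N z n ⟨0, hN⟩ - win N x n ⟨0, hN⟩)
    have e1 : win N z n ⟨0, hN⟩ = Real.log (z n) := rfl
    have e2 : win N x n ⟨0, hN⟩ = Real.log (x n) := rfl
    rw [e1, e2] at h4
    rw [e1, e2] at h2
    linarith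
  have h5 : z n ≤ Real.exp (dist (win N z 0) (win N x 0)) * x n := by
    have h6 := Real.exp_le_exp.mpr h3
    rwa [Real.exp_add, Real.exp_log (hz.1 n), Real.exp_log (hx.1 n)] at h6
  exact h5.trans (mul_le_mul_of_nonneg_left (hM n) (Real.exp_pos _).le)

/-- A bounded solution is bounded away from zero. -/
theorem lower {b : ℕ → Fin N → ℝ} (hb : Good b) {k : ℕ} (hk : 0 < k)
    (hper : ∀ n i, b (n + k) i = b n i) {x : ℕ → ℝ} (hx : Sol b x) (h : Bdd x) :
    ∃ c > 0, ∀ n, c ≤ x n := by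
  obtain ⟨M, hM⟩ := h
  have hM0 : 0 < M := (hx.1 0).trans_le (hM 0)
  -- bound of the coefficients
  have hmod : ∀ n i, b n i = b (n % k) i := by
    intro n i
    have : ∀ q r, b (r + q * k) i = b r i := by
      intro q
      induction q with
      | zero => intro r; simp
      | succ q ih =>
        intro r
        have e : r + (q + 1) * k = (r + q * k) + k := by ring
        rw [e, hper, ih]
    have h2 := this (n / k) (n % k)
    rwa [Nat.mod_add_div'] at h2
  let S : ℝ := ∑ m ∈ Finset.range k, ∑ i : Fin N, b m i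
  have hS : ∀ n, ∑ i : Fin N, b n i ≤ S := by
    intro n
    have h1 : ∑ i : Fin N, b n i = ∑ i : Fin N, b (n % k) i :=
      Finset.sum_congr rfl fun i _ => hmod n i
    rw [h1]
    exact Finset.single_le_sum (f := fun m => ∑ i : Fin N, b m i)
      (fun m _ => Finset.sum_nonneg fun i _ => hb.nonneg m i)
      (Finset.mem_range.mpr (Nat.mod_lt n hk))
  have hS0 : 0 < S := by
    obtain ⟨i, hi⟩ := hb.pos 0
    have : 0 < ∑ i : Fin N, b 0 i :=
      Finset.sum_pos' (fun j _ => hb.nonneg 0 j) ⟨i, Finset.mem_univ i, hi⟩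
    exact this.trans_le (hS 0)
  have hbig : ∀ n, 1 / (S * M) ≤ x (n + N) := by
    intro n
    rw [hx.2 n]
    refine one_div_le_one_div_of_le (hb.sum_pos n fun i => hx.1 _) ?_
    calc ∑ i : Fin N, b n i * x (n + i) ≤ ∑ i : Fin N, b n i * M :=
          Finset.sum_le_sum fun i _ => mul_le_mul_of_nonneg_left (hM _) (hb.nonneg n i)
      _ = (∑ i : Fin N, b n i) * M := by rw [Finset.sum_mul]
      _ ≤ S * M := mul_le_mul_of_nonneg_right (hS n) hM0.le
  obtain ⟨c0, hc0, hc0'⟩ : ∃ c > 0, ∀ n < N, c ≤ x n := by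
    clear hbig hS0 hS
    induction N with
    | zero => exact ⟨1, one_pos, fun n hn => absurd hn (by omega)⟩
    | succ m _ =>
      have hne : (Finset.range (m + 1)).Nonempty := ⟨0, by simp⟩
      refine ⟨(Finset.range (m + 1)).inf' hne x, ?_, fun n hn => ?_⟩
      · rw [gt_iff_lt, Finset.lt_inf'_iff]
        exact fun i _ => hx.1 i
      · exact Finset.inf'_le _ (Finset.mem_range.mpr hn)
  refine ⟨min c0 (1 / (S * M)), lt_min hc0 (by positivity), fun n => ?_⟩
  rcases lt_or_ge n N with h1 | h1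
  · exact (min_le_left _ _).trans (hc0' n h1)
  · have e : n = (n - N) + N := by omega
    rw [e]
    exact (min_le_right _ _).trans (hbig _)

/-- A bounded solution forces a periodic solution. -/
theorem exists_periodic {b : ℕ → Fin N → ℝ} (hb : Good b) (hN : 0 < N) {k : ℕ} (hk : 0 < k)
    (hper : ∀ n i, b (n + k) i = b n i) {x : ℕ → ℝ} (hx : Sol b x) (h : Bdd x) :
    ∃ w, Sol b w ∧ ∀ n, w (n + k) = w n := by
  obtain ⟨c, hc, hcx⟩ := lower hb hk hper hx h
  obtain ⟨M, hM⟩ := h
  have hR : ∀ n, ‖win N x n‖ ≤ max |Real.log c| |Real.log M| := by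
    intro n
    rw [pi_norm_le_iff_of_nonneg (le_max_of_le_left (abs_nonneg _))]
    intro i
    show |Real.log (x (n + i))| ≤ _
    have h1 := Real.log_le_log hc (hcx (n + i))
    have h2 := Real.log_le_log (hx.1 (n + i)) (hM (n + i))
    rw [abs_le]
    constructor
    · have := neg_abs_le (Real.log c)
      have := le_max_left |Real.log c| |Real.log M|
      linarith
    · have := le_abs_self (Real.log M)
      have := le_max_right |Real.log c| |Real.log M|
      linarith
  obtain ⟨y, hy⟩ := exists_fixed (T_lip hb k) (win N x 0) _ (fun n => by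
    rw [T_mul hper, ← win_eq hx]
    exact hR (n * k))
  refine ⟨seq b hN y, sol_seq hb hN y, fun n => ?_⟩
  unfold seq
  rw [T_add hper, hy]

theorem bdd_periodic {x : ℕ → ℝ} {k : ℕ} (hk : 0 < k) (h : ∀ n, x (n + k) = x n) : Bdd x := by
  have hmod : ∀ n, x n = x (n % k) := by
    intro n
    have : ∀ q r, x (r + q * k) = x r := by
      intro q
      induction q with
      | zero => intro r; simp
      | succ q ih =>
        intro r
        have e : r + (q + 1) * k = (r + q * k) + k := by ring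
        rw [e, h, ih]
    have h2 := this (n / k) (n % k)
    rwa [Nat.mod_add_div'] at h2
  have hne : (Finset.range k).Nonempty := ⟨0, by simpa using hk⟩
  refine ⟨(Finset.range k).sup' hne x, fun n => ?_⟩
  rw [hmod n]
  exact Finset.le_sup' x (Finset.mem_range.mpr (Nat.mod_lt n hk))

/-- **Dichotomy.** Either there is a positive `k`-periodic solution and all positive solutions are
bounded, or there is none and all positive solutions are unbounded. -/
theorem dichotomy {b : ℕ → Fin N → ℝ} (hb : Good b) (hN : 0 < N) {k : ℕ} (hk : 0 < k)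
    (hper : ∀ n i, b (n + k) i = b n i) :
    ((∀ x, Sol b x → Bdd x) ↔ ∃ w, Sol b w ∧ ∀ n, w (n + k) = w n) ∧
    ((∃ x, Sol b x ∧ Bdd x) ↔ ∃ w, Sol b w ∧ ∀ n, w (n + k) = w n) := by
  have h1 : (∃ w, Sol b w ∧ ∀ n, w (n + k) = w n) → ∀ x, Sol b x → Bdd x := by
    rintro ⟨w, hw, hwk⟩ x hx
    exact bdd_of_bdd hb hN hw hx (bdd_periodic hk hwk)
  have h2 : (∃ x, Sol b x ∧ Bdd x) → ∃ w, Sol b w ∧ ∀ n, w (n + k) = w n := by
    rintro ⟨x, hx, hbx⟩
    exact exists_periodic hb hN hk hper hx hbx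
  have h3 : ∃ x, Sol b x := ⟨_, sol_seq hb hN 0⟩
  refine ⟨⟨fun h => ?_, h1⟩, h2, ?_⟩
  · obtain ⟨x, hx⟩ := h3
    exact h2 ⟨x, hx, h x hx⟩
  · rintro ⟨w, hw, hwk⟩
    exact ⟨w, hw, bdd_periodic hk hwk⟩

end Q201.PR
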