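import Mathlib

/-!
# Periodic sequences with prescribed products of neighbours, and a cyclic quadratic system
-/

set_option autoImplicit false

namespace Q201.PR

/-- periodic functions depend on the residue only -/
theorem per_add_mul {α : Type*} {f : ℕ → α} {k : ℕ} (h : ∀ n, f (n + k) = f n) (n q : ℕ) :
    f (n + k * q) = f n := by
  induction q with
  | zero => simp
  | succ q ih =>
    have e : n + k * (q + 1) = (n + k * q) + k := by ring
    rw [e, h, ih]

theorem per_mod {α : Type*} {f : ℕ → α} {k : ℕ} (h : ∀ n, f (n + k) = f n) {a b : ℕ}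
    (hab : a ≡ b [MOD k]) : f a = f b := by
  have h1 : ∀ m, f m = f (m % k) := by
    intro m
    conv_lhs => rw [← Nat.mod_add_div m k]
    exact per_add_mul h _ _
  rw [h1 a, h1 b, hab]

/-- The sequence with `v 0 = 1` and `v n * v (n+1) = p n`. -/
noncomputable def vseq (p : ℕ → ℝ) : ℕ → ℝ
  | 0 => 1
  | n + 1 => p n / vseq p n

theorem vseq_pos {p : ℕ → ℝ} (hp : ∀ n, 0 < p n) (n : ℕ) : 0 < vseq p n := by
  induction n with
  | zero => exact one_pos
  | succ n ih => exact div_pos (hp n) ih

theorem vseq_mul {p : ℕ → ℝ} (hp : ∀ n, 0 < p n) (n : ℕ) : vseq p n * vseq p (n + 1) = p n := by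
  show vseq p n * (p n / vseq p n) = p n
  have := (vseq_pos hp n).ne'
  field_simp

/-- Uniqueness from the first value. -/
theorem per_of_first {w p : ℕ → ℝ} {k : ℕ} (hw : ∀ n, 0 < w n) (hp : ∀ n, p (n + k) = p n)
    (h : ∀ n, w n * w (n + 1) = p n) (h0 : w k = w 0) (n : ℕ) : w (n + k) = w n := by
  induction n with
  | zero => simpa using h0
  | succ n ih =>
    have h1 := h (n + k)
    have h2 := h n
    rw [hp, ih] at h1
    have e : n + k + 1 = n + 1 + k := by ring
    rw [e] at h1
    have h3 := (hw n).ne'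
    have h4 : w n * w (n + 1 + k) = w n * w (n + 1) := by rw [h1, h2]
    exact mul_left_cancel₀ h3 h4

theorem prod_shift {f : ℕ → ℝ} (m : ℕ) (h : f m = f 0) :
    ∏ i ∈ Finset.range m, f (i + 1) = ∏ i ∈ Finset.range m, f i := by
  rcases m with _ | m
  · rfl
  · rw [Finset.prod_range_succ, Finset.prod_range_succ' f m, h]

/-- Prescribed products of neighbours in a cycle. -/
theorem exists_products {k : ℕ} {p : ℕ → ℝ} (hp0 : ∀ n, 0 < p n)
    (hp : ∀ n, p (n + k) = p n) :
    (∃ w : ℕ → ℝ, (∀ n, 0 < w n) ∧ (∀ n, w (n + k) = w n) ∧ ∀ n, w n * w (n + 1) = p n) ↔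
      (Even k → ∏ i ∈ Finset.range (k / 2), p (2 * i) =
        ∏ i ∈ Finset.range (k / 2), p (2 * i + 1)) := by
  constructor
  · rintro ⟨w, hw, hwk, h⟩ ⟨m, hm⟩
    have hm2 : k / 2 = m := by omega
    rw [hm2]
    have h1 : ∏ i ∈ Finset.range m, p (2 * i) =
        (∏ i ∈ Finset.range m, w (2 * i)) * ∏ i ∈ Finset.range m, w (2 * i + 1) := by
      rw [← Finset.prod_mul_distrib]
      exact Finset.prod_congr rfl fun i _ => (h _).symm
    have h2 : ∏ i ∈ Finset.range m, p (2 * i + 1) =
        (∏ i ∈ Finset.range m, w (2 * i + 1)) * ∏ i ∈ Finset.range m, w (2 * (i + 1)) := by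
      rw [← Finset.prod_mul_distrib]
      exact Finset.prod_congr rfl fun i _ => (h _).symm
    have h3 : ∏ i ∈ Finset.range m, w (2 * (i + 1)) = ∏ i ∈ Finset.range m, w (2 * i) := by
      refine prod_shift (f := fun i => w (2 * i)) m ?_
      have := hwk 0
      rw [zero_add] at this
      simp only [mul_zero]
      rw [← this]
      congr 1
      omega
    rw [h1, h2, h3, mul_comm]
  · intro h
    rcases Nat.even_or_odd k with he | ho
    · obtain ⟨m, hm⟩ := he
      have hm2 : k / 2 = m := by omega
      have h' := h ⟨m, hm⟩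
      rw [hm2] at h'
      refine ⟨vseq p, vseq_pos hp0, ?_, vseq_mul hp0⟩
      refine per_of_first (vseq_pos hp0) hp (vseq_mul hp0) ?_
      -- v (2 m) = 1
      have h2 : ∀ j, vseq p (2 * j) * ∏ i ∈ Finset.range j, p (2 * i) =
          ∏ i ∈ Finset.range j, p (2 * i + 1) := by
        intro j
        induction j with
        | zero => simp [vseq]
        | succ j ih =>
          rw [Finset.prod_range_succ, Finset.prod_range_succ, ← ih]
          have e1 := vseq_mul hp0 (2 * j)
          have e2 := vseq_mul hp0 (2 * j + 1)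
          have e3 : 2 * (j + 1) = 2 * j + 1 + 1 := by ring
          rw [e3]
          calc vseq p (2 * j + 1 + 1) * ((∏ i ∈ Finset.range j, p (2 * i)) * p (2 * j))
              = vseq p (2 * j + 1 + 1) * ((∏ i ∈ Finset.range j, p (2 * i)) *
                (vseq p (2 * j) * vseq p (2 * j + 1))) := by rw [e1]
            _ = vseq p (2 * j) * (∏ i ∈ Finset.range j, p (2 * i)) *
                (vseq p (2 * j + 1) * vseq p (2 * j + 1 + 1)) := by ring
            _ = _ := by rw [e2]
      have h3 := h2 m
      rw [← h'] at h3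
      have h4 : 0 < ∏ i ∈ Finset.range m, p (2 * i) := Finset.prod_pos fun i _ => hp0 _
      have h5 : vseq p (2 * m) = 1 := by
        have : vseq p (2 * m) * ∏ i ∈ Finset.range m, p (2 * i) =
            1 * ∏ i ∈ Finset.range m, p (2 * i) := by rw [h3, one_mul]
        exact mul_right_cancel₀ h4.ne' this
      have e : k = 2 * m := by omega
      rw [e, h5]
      rfl
    · let s : ℝ := Real.sqrt (vseq p k)
      have hs : 0 < s := Real.sqrt_pos.mpr (vseq_pos hp0 k)
      have hss : s * s = vseq p k := Real.mul_self_sqrt (vseq_pos hp0 k).le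
      let w : ℕ → ℝ := fun n => if Even n then vseq p n * s else vseq p n / s
      have hw : ∀ n, 0 < w n := by
        intro n
        show 0 < if Even n then vseq p n * s else vseq p n / s
        have := vseq_pos hp0 n
        split_ifs <;> positivity
      have hmul : ∀ n, w n * w (n + 1) = p n := by
        intro n
        show (if Even n then vseq p n * s else vseq p n / s) *
          (if Even (n + 1) then vseq p (n + 1) * s else vseq p (n + 1) / s) = p n
        have e := vseq_mul hp0 n
        rcases Nat.even_or_odd n with h1 | h1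
        · have h2 : ¬ Even (n + 1) := by
            rw [Nat.not_even_iff_odd]; exact h1.add_one
          rw [if_pos h1, if_neg h2, ← e]
          field_simp
        · have h2 : Even (n + 1) := h1.add_one
          rw [if_neg (Nat.not_even_iff_odd.mpr h1), if_pos h2, ← e]
          field_simp
      refine ⟨w, hw, per_of_first hw hp hmul ?_, hmul⟩
      show (if Even k then vseq p k * s else vseq p k / s) =
        (if Even 0 then vseq p 0 * s else vseq p 0 / s)
      rw [if_neg (Nat.not_even_iff_odd.mpr ho), if_pos (by decide), ← hss]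
      show s * s / s = 1 * s
      field_simp

/-- The positive root of `t * (B * x + t) = 1`. -/
noncomputable def phi (B x : ℝ) : ℝ := 2 / (B * x + Real.sqrt ((B * x) ^ 2 + 4))

theorem sqrt_ge (y : ℝ) : 2 ≤ Real.sqrt (y ^ 2 + 4) := by
  have h : Real.sqrt ((2 : ℝ) ^ 2) ≤ Real.sqrt (y ^ 2 + 4) :=
    Real.sqrt_le_sqrt (by nlinarith [sq_nonneg y])
  rwa [Real.sqrt_sq (by norm_num)] at h

theorem phi_pos {B x : ℝ} (hB : 0 ≤ B) (hx : 0 ≤ x) : 0 < phi B x := by
  have h1 := sqrt_ge (B * x)
  have h2 := mul_nonneg hB hx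
  unfold phi
  exact div_pos two_pos (by linarith)

theorem phi_le {B x : ℝ} (hB : 0 ≤ B) (hx : 0 ≤ x) : phi B x ≤ 1 := by
  have h1 := sqrt_ge (B * x)
  have h2 := mul_nonneg hB hx
  unfold phi
  rw [div_le_one (by linarith)]
  linarith

theorem phi_eq {B x : ℝ} (hB : 0 ≤ B) (hx : 0 ≤ x) : phi B x * (B * x + phi B x) = 1 := by
  have h1 := sqrt_ge (B * x)
  have h2 := mul_nonneg hB hx
  have h3 : Real.sqrt ((B * x) ^ 2 + 4) ^ 2 = (B * x) ^ 2 + 4 := Real.sq_sqrt (by positivity)
  unfold phi
  set r := Real.sqrt ((B * x) ^ 2 + 4)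
  have h4 : B * x + r ≠ 0 := by linarith
  field_simp
  nlinarith [h3]

/-- A cyclic system `s_{n+1} (B_n s_n + s_{n+1}) = 1` has a positive periodic solution. -/
theorem exists_diagonal {k : ℕ} (hk : 0 < k) {B : ℕ → ℝ} (hB : ∀ n, 0 ≤ B n)
    (hper : ∀ n, B (n + k) = B n) :
    ∃ s : ℕ → ℝ, (∀ n, 0 < s n) ∧ (∀ n, s (n + k) = s n) ∧
      ∀ n, s (n + 1) * (B n * s n + s (n + 1)) = 1 := by
  let S : ℕ → ℝ → ℝ := fun n u => Nat.rec u (fun m t => phi (B m) t) n
  have hS0 : ∀ u, S 0 u = u := fun u => rfl
  have hS1 : ∀ n u, S (n + 1) u = phi (B n) (S n u) := fun n u => rfl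
  have hmem : ∀ n, ∀ u ∈ Set.Icc (0 : ℝ) 1, S n u ∈ Set.Icc (0 : ℝ) 1 := by
    intro n u hu
    induction n with
    | zero => exact hu
    | succ n ih =>
      rw [hS1]
      exact ⟨(phi_pos (hB n) ih.1).le, phi_le (hB n) ih.1⟩
  have hcont : ∀ n, ContinuousOn (S n) (Set.Icc 0 1) := by
    intro n
    induction n with
    | zero => exact continuousOn_id
    | succ n ih =>
      have e : S (n + 1) = fun u => 2 / (B n * S n u + Real.sqrt ((B n * S n u) ^ 2 + 4)) := rfl
      rw [e]
      refine ContinuousOn.div continuousOn_const ?_ ?_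
      · exact (continuousOn_const.mul ih).add
          (((continuousOn_const.mul ih).pow 2).add continuousOn_const).sqrt
      · intro u hu
        have h1 := sqrt_ge (B n * S n u)
        have h2 := mul_nonneg (hB n) (hmem n u hu).1
        linarith
  obtain ⟨u, hu, hfix⟩ := exists_mem_Icc_isFixedPt_of_mapsTo (hcont k) zero_le_one
    (fun u hu => hmem k u hu)
  have hfix' : S k u = u := hfix
  have hper' : ∀ n, S (n + k) u = S n u := by
    intro n
    induction n with
    | zero => simpa [hS0] using hfix'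
    | succ n ih =>
      have e : n + 1 + k = (n + k) + 1 := by ring
      rw [e, hS1, hS1, ih, hper]
  have hpos : ∀ n, 0 < S n u := by
    intro n
    rw [← hper' n]
    obtain ⟨j, hj⟩ : ∃ j, n + k = j + 1 := ⟨n + k - 1, by omega⟩
    rw [hj, hS1]
    exact phi_pos (hB j) (hmem j u hu).1
  refine ⟨fun n => S n u, hpos, hper', fun n => ?_⟩
  show S (n + 1) u * (B n * S n u + S (n + 1) u) = 1
  rw [hS1]
  exact phi_eq (hB n) (hpos n).le

end Q201.PR
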