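import Pool.Agent.Q201.PR.Basic
import Pool.Agent.Q201.PR.Cycle

/-!
# The recursion `x_{n+1} = 1 / (B_n x_n + x_{n-l})`
-/

set_option autoImplicit false

namespace Q201.PR

/-- Positive solutions, index shifted by `l`. -/
def LSol (l : ℕ) (B : ℕ → ℝ) (x : ℕ → ℝ) : Prop :=
  (∀ i ≤ l, 0 < x i) ∧ ∀ n, x (n + l + 1) = 1 / (B n * x (n + l) + x n)

/-- The `k` equations for a positive `k`-periodic solution. -/
def Per (k l : ℕ) (B : ℕ → ℝ) : Prop :=
  ∃ w : ℕ → ℝ, (∀ n, 0 < w n) ∧ (∀ n, w (n + k) = w n) ∧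
    ∀ n < k, w (n + l + 1) * (B n * w (n + l) + w n) = 1

/-- The coefficients. -/
noncomputable def coef (l : ℕ) (B : ℕ → ℝ) (n : ℕ) (i : Fin (l + 1)) : ℝ :=
  (if (i : ℕ) = 0 then 1 else 0) + (if (i : ℕ) = l then B n else 0)

theorem sum_coef (l : ℕ) (B : ℕ → ℝ) (x : ℕ → ℝ) (n : ℕ) :
    ∑ i : Fin (l + 1), coef l B n i * x (n + i) = B n * x (n + l) + x n := by
  unfold coef
  simp only [add_mul, Finset.sum_add_distrib]
  have h1 : ∑ i : Fin (l + 1), (if (i : ℕ) = 0 then (1 : ℝ) else 0) * x (n + i) = x n := by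
    rw [Finset.sum_eq_single (⟨0, by omega⟩ : Fin (l + 1))]
    · simp
    · intro i _ hi
      rw [if_neg, zero_mul]
      intro h
      exact hi (Fin.ext h)
    · intro h
      exact absurd (Finset.mem_univ _) h
  have h2 : ∑ i : Fin (l + 1), (if (i : ℕ) = l then B n else 0) * x (n + i) = B n * x (n + l) := by
    rw [Finset.sum_eq_single (⟨l, by omega⟩ : Fin (l + 1))]
    · simp
    · intro i _ hi
      rw [if_neg, zero_mul]
      intro h
      exact hi (Fin.ext h)
    · intro h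
      exact absurd (Finset.mem_univ _) h
  rw [h1, h2, add_comm]

theorem good_coef {l : ℕ} {B : ℕ → ℝ} (hB : ∀ n, 0 ≤ B n) : Good (coef l B) := by
  refine ⟨fun n i => ?_, fun n => ⟨⟨0, by omega⟩, ?_⟩⟩
  · unfold coef
    have := hB n
    split_ifs <;> linarith
  · unfold coef
    have := hB n
    simp only [if_true]
    split_ifs <;> linarith

theorem LSol.pos {l : ℕ} {B x : ℕ → ℝ} (hB : ∀ n, 0 ≤ B n) (h : LSol l B x) (n : ℕ) : 0 < x n := by
  induction n using Nat.strong_induction_on with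
  | _ n ih =>
    rcases Nat.lt_or_ge l n with h1 | h1
    · obtain ⟨m, rfl⟩ : ∃ m, n = m + l + 1 := ⟨n - l - 1, by omega⟩
      rw [h.2 m]
      have h2 := ih m (by omega)
      have h3 := ih (m + l) (by omega)
      have h4 := hB m
      positivity
    · exact h.1 n h1

theorem lsol_iff {l : ℕ} {B x : ℕ → ℝ} (hB : ∀ n, 0 ≤ B n) : LSol l B x ↔ Sol (coef l B) x := by
  constructor
  · intro h
    refine ⟨h.pos hB, fun n => ?_⟩
    rw [sum_coef]
    exact h.2 n
  · intro h
    refine ⟨fun i _ => h.1 i, fun n => ?_⟩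
    have := h.2 n
    rw [sum_coef] at this
    exact this

theorem Per.all {k l : ℕ} (hk : 0 < k) {B w : ℕ → ℝ} (hper : ∀ n, B (n + k) = B n)
    (hw : ∀ n, w (n + k) = w n)
    (h : ∀ n < k, w (n + l + 1) * (B n * w (n + l) + w n) = 1) (n : ℕ) :
    w (n + l + 1) * (B n * w (n + l) + w n) = 1 := by
  have h1 := h (n % k) (Nat.mod_lt n hk)
  have h2 : n % k ≡ n [MOD k] := Nat.mod_modEq n k
  rw [per_mod hw ((h2.add_right l).add_right 1), per_mod hw (h2.add_right l), per_mod hw h2,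
    per_mod hper h2] at h1
  exact h1

theorem per_iff {k l : ℕ} (hk : 0 < k) {B : ℕ → ℝ} (hB : ∀ n, 0 ≤ B n)
    (hper : ∀ n, B (n + k) = B n) :
    Per k l B ↔ ∃ w, Sol (coef l B) w ∧ ∀ n, w (n + k) = w n := by
  constructor
  · rintro ⟨w, hw, hwk, h⟩
    refine ⟨w, ⟨hw, fun n => ?_⟩, hwk⟩
    rw [sum_coef]
    exact eq_one_div_of_mul_eq_one_left (Per.all hk hper hwk h n)
  · rintro ⟨w, hw, hwk⟩
    refine ⟨w, hw.1, hwk, fun n _ => ?_⟩
    have h1 := hw.2 n
    rw [sum_coef] at h1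
    have h2 : 0 < B n * w (n + l) + w n := by
      have := hw.1 n
      have := mul_nonneg (hB n) (hw.1 (n + l)).le
      linarith
    rw [show n + l + 1 = n + (l + 1) from rfl, h1, one_div]
    exact inv_mul_cancel₀ h2.ne'

theorem bdd_iff {x : ℕ → ℝ} : Bdd x ↔ BddAbove (Set.range x) := by
  constructor
  · rintro ⟨M, hM⟩
    exact ⟨M, by rintro _ ⟨n, rfl⟩; exact hM n⟩
  · rintro ⟨M, hM⟩
    exact ⟨M, fun n => hM ⟨n, rfl⟩⟩

/-- **The criterion.** -/
theorem lag_main {k l : ℕ} (hk : 0 < k) {B : ℕ → ℝ} (hB : ∀ n, 0 ≤ B n)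
    (hper : ∀ n, B (n + k) = B n) :
    ((∀ x, LSol l B x → BddAbove (Set.range x)) ↔ Per k l B) ∧
    (¬ Per k l B → ∀ x, LSol l B x → ¬ BddAbove (Set.range x)) := by
  have hp : ∀ n i, coef l B (n + k) i = coef l B n i := by
    intro n i
    unfold coef
    rw [hper]
  obtain ⟨h1, h2⟩ := dichotomy (good_coef (l := l) hB) (Nat.succ_pos l) hk hp
  rw [per_iff hk hB hper]
  refine ⟨?_, fun h x hx hb => h (h2.mp ⟨x, (lsol_iff hB).mp hx, bdd_iff.mpr hb⟩)⟩
  rw [← h1]
  constructor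
  · intro h x hx
    exact bdd_iff.mpr (h x ((lsol_iff hB).mpr hx))
  · intro h x hx
    exact bdd_iff.mp (h x ((lsol_iff hB).mp hx))

theorem exists_lsol {l : ℕ} {B : ℕ → ℝ} (hB : ∀ n, 0 ≤ B n) : ∃ x, LSol l B x :=
  ⟨_, (lsol_iff hB).mpr (sol_seq (good_coef hB) (Nat.succ_pos l) 0)⟩

/-- Only the residue of the lag matters. -/
theorem per_lag {k l m : ℕ} {B : ℕ → ℝ} (h : l ≡ m [MOD k]) : Per k l B ↔ Per k m B := by
  have key : ∀ l m, l ≡ m [MOD k] → Per k l B → Per k m B := by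
    rintro l m h ⟨w, hw, hwk, hq⟩
    refine ⟨w, hw, hwk, fun n hn => ?_⟩
    have h1 := hq n hn
    have h2 : n + l ≡ n + m [MOD k] := h.add_left n
    rw [per_mod hwk (h2.add_right 1), per_mod hwk h2] at h1
    exact h1
  exact ⟨key l m h, key m l h.symm⟩

/-- Lag divisible by the period. -/
theorem per_zero {k l : ℕ} (hk : 0 < k) {B : ℕ → ℝ} (hB : ∀ n, 0 ≤ B n)
    (hper : ∀ n, B (n + k) = B n) (h : k ∣ l) :
    Per k l B ↔ (Even k → ∏ i ∈ Finset.range (k / 2), (1 + B (2 * i)) =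
      ∏ i ∈ Finset.range (k / 2), (1 + B (2 * i + 1))) := by
  rw [per_lag ((Nat.modEq_zero_iff_dvd).mpr h)]
  have hp0 : ∀ n, 0 < 1 / (1 + B n) := fun n => by have := hB n; positivity
  have h1 := exists_products hp0 (fun n => by rw [hper])
  have h2 : (∏ i ∈ Finset.range (k / 2), 1 / (1 + B (2 * i)) =
      ∏ i ∈ Finset.range (k / 2), 1 / (1 + B (2 * i + 1))) ↔
      (∏ i ∈ Finset.range (k / 2), (1 + B (2 * i)) =
      ∏ i ∈ Finset.range (k / 2), (1 + B (2 * i + 1))) := by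
    simp only [one_div, Finset.prod_inv_distrib]
    exact inv_inj
  rw [← h2, ← h1]
  constructor
  · rintro ⟨w, hw, hwk, hq⟩
    refine ⟨w, hw, hwk, fun n => ?_⟩
    have h3 := Per.all (l := 0) hk hper hwk hq n
    have h4 : 0 < 1 + B n := by have := hB n; linarith
    simp only [Nat.add_zero] at h3
    rw [eq_div_iff h4.ne']
    linear_combination h3
  · rintro ⟨w, hw, hwk, hq⟩
    refine ⟨w, hw, hwk, fun n _ => ?_⟩
    have h3 := hq n
    have h4 : 0 < 1 + B n := by have := hB n; linarith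
    simp only [Nat.add_zero]
    calc w (n + 1) * (B n * w n + w n) = (w n * w (n + 1)) * (1 + B n) := by ring
      _ = 1 := by rw [h3, one_div, inv_mul_cancel₀ h4.ne']

/-- Period dividing `l + 1`. -/
theorem per_neg_one {k l : ℕ} (hk : 0 < k) {B : ℕ → ℝ} (hB : ∀ n, 0 ≤ B n)
    (hper : ∀ n, B (n + k) = B n) (h : k ∣ l + 1) : Per k l B := by
  obtain ⟨s, hs, hsk, hq⟩ := exists_diagonal hk hB hper
  refine ⟨fun n => s (n + 1), fun n => hs _, fun n => ?_, fun n _ => ?_⟩
  · show s (n + k + 1) = s (n + 1)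
    rw [show n + k + 1 = n + 1 + k by ring, hsk]
  · show s (n + l + 1 + 1) * (B n * s (n + l + 1) + s (n + 1)) = 1
    have h1 : n + l + 1 ≡ n [MOD k] := by
      have h0 : l + 1 ≡ 0 [MOD k] := (Nat.modEq_zero_iff_dvd).mpr h
      exact h0.add_left n
    rw [per_mod hsk (h1.add_right 1), per_mod hsk h1]
    exact hq n

/-- The linear cyclic system. -/
def Lin (k : ℕ) (B : ℕ → ℝ) : Prop :=
  ∃ q : ℕ → ℝ, (∀ n, 0 < q n) ∧ (∀ n, q (n + k) = q n) ∧ (∀ n < k, q (n + 1) = 1 - B n * q n) ∧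
    (Even k → ∏ i ∈ Finset.range (k / 2), q (2 * i) = ∏ i ∈ Finset.range (k / 2), q (2 * i + 1))

/-- Period dividing `l + 2`. -/
theorem per_neg_two {k l : ℕ} {B : ℕ → ℝ} (h : k ∣ l + 2) : Per k l B ↔ Lin k B := by
  have hm : ∀ n, n + l + 2 ≡ n [MOD k] := by
    intro n
    have : l + 2 ≡ 0 [MOD k] := (Nat.modEq_zero_iff_dvd).mpr h
    simpa [add_assoc] using this.add_left n
  constructor
  · rintro ⟨w, hw, hwk, hq⟩
    -- `q n = w (n + l) w (n + l + 1)`
    let q : ℕ → ℝ := fun n => w (n + l) * w (n + l + 1)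
    have hqk : ∀ n, q (n + k) = q n := by
      intro n
      show w (n + k + l) * w (n + k + l + 1) = w (n + l) * w (n + l + 1)
      rw [show n + k + l = n + l + k by ring, hwk, show n + l + k + 1 = n + l + 1 + k by ring, hwk]
    have hq0 : ∀ n, 0 < q n := fun n => mul_pos (hw _) (hw _)
    refine ⟨q, hq0, hqk, fun n hn => ?_, ?_⟩
    · show w (n + 1 + l) * w (n + 1 + l + 1) = 1 - B n * (w (n + l) * w (n + l + 1))
      have h1 := hq n hn
      have h2 : w (n + 1 + l + 1) = w n := by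
        rw [show n + 1 + l + 1 = n + l + 2 by ring]
        exact per_mod hwk (hm n)
      rw [h2, show n + 1 + l = n + l + 1 by ring]
      linarith
    · rw [← exists_products hq0 hqk]
      refine ⟨fun n => w (n + l), fun n => hw _, fun n => ?_, fun n => ?_⟩
      · show w (n + k + l) = w (n + l)
        rw [show n + k + l = n + l + k by ring, hwk]
      · show w (n + l) * w (n + 1 + l) = w (n + l) * w (n + l + 1)
        rw [show n + 1 + l = n + l + 1 by ring]
  · rintro ⟨q, hq0, hqk, hlin, hprod⟩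
    rw [← exists_products hq0 hqk] at hprod
    obtain ⟨v, hv, hvk, hvq⟩ := hprod
    -- `w n = v (n + 2)`
    refine ⟨fun n => v (n + 2), fun n => hv _, fun n => ?_, fun n hn => ?_⟩
    · show v (n + k + 2) = v (n + 2)
      rw [show n + k + 2 = n + 2 + k by ring, hvk]
    · show v (n + l + 1 + 2) * (B n * v (n + l + 2) + v (n + 2)) = 1
      have h1 : v (n + l + 2) = v n := per_mod hvk (hm n)
      have h2 : v (n + l + 1 + 2) = v (n + 1) := by
        rw [show n + l + 1 + 2 = n + l + 2 + 1 by ring]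
        exact per_mod hvk ((hm n).add_right 1)
      rw [h1, h2]
      have h3 := hvq n
      have h4 := hvq (n + 1)
      have h5 := hlin n hn
      rw [show n + 1 + 1 = n + 2 by ring] at h4
      calc v (n + 1) * (B n * v n + v (n + 2)) = B n * (v n * v (n + 1)) + v (n + 1) * v (n + 2) := by
            ring
        _ = 1 := by rw [h3, h4, h5]; ring

/-- Period three in the linear case. -/
theorem lin_three {B : ℕ → ℝ} (hB : ∀ n, 0 ≤ B n) :
    Lin 3 B ↔ 0 < 1 - B 2 + B 2 * B 1 ∧ 0 < 1 - B 0 + B 0 * B 2 ∧ 0 < 1 - B 1 + B 1 * B 0 := by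
  have hP : 0 < 1 + B 0 * B 1 * B 2 := by
    have := mul_nonneg (mul_nonneg (hB 0) (hB 1)) (hB 2)
    linarith
  constructor
  · rintro ⟨q, hq0, hqk, hlin, -⟩
    have h0 := hlin 0 (by norm_num)
    have h1 := hlin 1 (by norm_num)
    have h2 := hlin 2 (by norm_num)
    have h3 := hqk 0
    norm_num at h0 h1 h2 h3
    rw [h3] at h2
    have e0 : q 0 * (1 + B 0 * B 1 * B 2) = 1 - B 2 + B 2 * B 1 := by
      have : q 0 = 1 - B 2 * (1 - B 1 * (1 - B 0 * q 0)) := by
        rw [← h0, ← h1, ← h2]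
      linear_combination this
    have e1 : q 1 * (1 + B 0 * B 1 * B 2) = 1 - B 0 + B 0 * B 2 := by
      have : q 1 = 1 - B 0 * (1 - B 2 * (1 - B 1 * q 1)) := by
        rw [← h1, ← h2, ← h0]
      linear_combination this
    have e2 : q 2 * (1 + B 0 * B 1 * B 2) = 1 - B 1 + B 1 * B 0 := by
      have : q 2 = 1 - B 1 * (1 - B 0 * (1 - B 2 * q 2)) := by
        rw [← h2, ← h0, ← h1]
      linear_combination this
    rw [← e0, ← e1, ← e2]
    exact ⟨mul_pos (hq0 0) hP, mul_pos (hq0 1) hP, mul_pos (hq0 2) hP⟩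
  · rintro ⟨h0, h1, h2⟩
    let P := 1 + B 0 * B 1 * B 2
    have hP' : P ≠ 0 := hP.ne'
    let q : ℕ → ℝ := fun n => if n % 3 = 0 then (1 - B 2 + B 2 * B 1) / P else
      if n % 3 = 1 then (1 - B 0 + B 0 * B 2) / P else (1 - B 1 + B 1 * B 0) / P
    refine ⟨q, fun n => ?_, fun n => ?_, fun n hn => ?_, fun h => absurd h (by decide)⟩
    · show 0 < if n % 3 = 0 then (1 - B 2 + B 2 * B 1) / P else
        if n % 3 = 1 then (1 - B 0 + B 0 * B 2) / P else (1 - B 1 + B 1 * B 0) / P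
      split_ifs
      · exact div_pos h0 hP
      · exact div_pos h1 hP
      · exact div_pos h2 hP
    · show (if (n + 3) % 3 = 0 then _ else _) = _
      rw [Nat.add_mod_right]
    · have hq0 : q 0 = (1 - B 2 + B 2 * B 1) / P := rfl
      have hq1 : q 1 = (1 - B 0 + B 0 * B 2) / P := rfl
      have hq2 : q 2 = (1 - B 1 + B 1 * B 0) / P := rfl
      have hq3 : q 3 = (1 - B 2 + B 2 * B 1) / P := rfl
      interval_cases n
      · show q 1 = 1 - B 0 * q 0
        rw [hq0, hq1]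
        field_simp
        show _ = 1 + B 0 * B 1 * B 2 - _
        ring
      · show q 2 = 1 - B 1 * q 1
        rw [hq2, hq1]
        field_simp
        show _ = 1 + B 0 * B 1 * B 2 - _
        ring
      · show q 3 = 1 - B 2 * q 2
        rw [hq2, hq3]
        field_simp
        show _ = 1 + B 0 * B 1 * B 2 - _
        ring

end Q201.PR
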