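import Pool.Agent.Q201.PR.TropCycle

/-!
# The recursion `x_{n+1} = 1 / (C_n x_{n-1} + x_{n-2})`
-/

set_option autoImplicit false

namespace Q201.PR

/-- Positive solutions, index shifted by two. -/
def TSol (C : ℕ → ℝ) (x : ℕ → ℝ) : Prop :=
  0 < x 0 ∧ 0 < x 1 ∧ 0 < x 2 ∧ ∀ n, x (n + 3) = 1 / (C n * x (n + 1) + x n)

/-- The coefficients. -/
noncomputable def coef3 (C : ℕ → ℝ) (n : ℕ) : Fin 3 → ℝ := ![1, C n, 0]

theorem sum_coef3 (C : ℕ → ℝ) (x : ℕ → ℝ) (n : ℕ) :
    ∑ i : Fin 3, coef3 C n i * x (n + i) = C n * x (n + 1) + x n := by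
  rw [Fin.sum_univ_three]
  simp [coef3]
  ring

theorem good_coef3 {C : ℕ → ℝ} (hC : ∀ n, 0 ≤ C n) : Good (coef3 C) := by
  refine ⟨fun n i => ?_, fun n => ⟨0, by simp [coef3]⟩⟩
  fin_cases i
  · simp [coef3]
  · simpa [coef3] using hC n
  · simp [coef3]

theorem TSol.pos {C x : ℕ → ℝ} (hC : ∀ n, 0 ≤ C n) (h : TSol C x) (n : ℕ) : 0 < x n := by
  induction n using Nat.strong_induction_on with
  | _ n ih =>
    match n with
    | 0 => exact h.1
    | 1 => exact h.2.1
    | 2 => exact h.2.2.1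
    | n + 3 =>
      rw [h.2.2.2 n]
      have h1 := ih n (by omega)
      have h2 := ih (n + 1) (by omega)
      have h3 := hC n
      positivity

theorem tsol_iff {C x : ℕ → ℝ} (hC : ∀ n, 0 ≤ C n) : TSol C x ↔ Sol (coef3 C) x := by
  constructor
  · intro h
    refine ⟨h.pos hC, fun n => ?_⟩
    rw [sum_coef3]
    exact h.2.2.2 n
  · intro h
    refine ⟨h.1 0, h.1 1, h.1 2, fun n => ?_⟩
    have := h.2 n
    rw [sum_coef3] at this
    exact this

theorem PerG.all {k c b : ℕ} (hk : 0 < k) {B w : ℕ → ℝ} (hper : ∀ n, B (n + k) = B n)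
    (hw : ∀ n, w (n + k) = w n)
    (h : ∀ n < k, w (n + c) * (B n * w (n + b) + w n) = 1) (n : ℕ) :
    w (n + c) * (B n * w (n + b) + w n) = 1 := by
  have h1 := h (n % k) (Nat.mod_lt n hk)
  have h2 : n % k ≡ n [MOD k] := Nat.mod_modEq n k
  rw [per_mod hw (h2.add_right c), per_mod hw (h2.add_right b), per_mod hw h2,
    per_mod hper h2] at h1
  exact h1

theorem perG3_iff {k : ℕ} (hk : 0 < k) {C : ℕ → ℝ} (hC : ∀ n, 0 ≤ C n)
    (hper : ∀ n, C (n + k) = C n) :
    PerG k 3 1 C ↔ ∃ w, Sol (coef3 C) w ∧ ∀ n, w (n + k) = w n := by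
  constructor
  · rintro ⟨w, hw, hwk, h⟩
    refine ⟨w, ⟨hw, fun n => ?_⟩, hwk⟩
    rw [sum_coef3]
    exact eq_one_div_of_mul_eq_one_left (PerG.all hk hper hwk h n)
  · rintro ⟨w, hw, hwk⟩
    refine ⟨w, hw.1, hwk, fun n _ => ?_⟩
    have h1 := hw.2 n
    rw [sum_coef3] at h1
    have h2 : 0 < C n * w (n + 1) + w n := by
      have := hw.1 n
      have := mul_nonneg (hC n) (hw.1 (n + 1)).le
      linarith
    rw [h1, one_div]
    exact inv_mul_cancel₀ h2.ne'

/-- **The criterion.** -/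
theorem third_main {k : ℕ} (hk : 0 < k) {C : ℕ → ℝ} (hC : ∀ n, 0 ≤ C n)
    (hper : ∀ n, C (n + k) = C n) :
    ((∀ x, TSol C x → BddAbove (Set.range x)) ↔ PerG k 3 1 C) ∧
    (¬ PerG k 3 1 C → ∀ x, TSol C x → ¬ BddAbove (Set.range x)) := by
  have hp : ∀ n i, coef3 C (n + k) i = coef3 C n i := by
    intro n i
    unfold coef3
    rw [hper]
  obtain ⟨h1, h2⟩ := dichotomy (good_coef3 hC) (by norm_num) hk hp
  rw [perG3_iff hk hC hper]
  refine ⟨?_, fun h x hx hb => h (h2.mp ⟨x, (tsol_iff hC).mp hx, bdd_iff.mpr hb⟩)⟩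
  rw [← h1]
  constructor
  · intro h x hx
    exact bdd_iff.mpr (h x ((tsol_iff hC).mpr hx))
  · intro h x hx
    exact bdd_iff.mp (h x ((tsol_iff hC).mp hx))

theorem third_two {C : ℕ → ℝ} (hC : ∀ n, 0 ≤ C n) (hper : ∀ n, C (n + 2) = C n)
    (hne : C 0 ≠ C 1) : PerG 2 3 1 C ↔ 0 < C 0 ∧ 0 < C 1 := by
  constructor
  · rintro ⟨w, hw, hwk, h⟩
    have h0 := h 0 (by norm_num)
    have h1 := h 1 (by norm_num)
    have e2 : w 2 = w 0 := hwk 0
    have e3 : w 3 = w 1 := hwk 1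
    have e4 : w 4 = w 0 := (hwk 2).trans e2
    norm_num [e2, e3, e4] at h0 h1
    have p0 := hw 0
    have p1 := hw 1
    constructor
    · rcases (hC 0).lt_or_eq with h2 | h2
      · exact h2
      · exfalso
        rw [← h2] at h0
        have h3 : C 1 * (w 0 * w 0) = 0 := by linarith
        rcases mul_eq_zero.mp h3 with h4 | h4
        · exact hne (by rw [← h2, h4])
        · exact (mul_pos p0 p0).ne' h4
    · rcases (hC 1).lt_or_eq with h2 | h2
      · exact h2
      · exfalso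
        rw [← h2] at h1
        have h3 : C 0 * (w 1 * w 1) = 0 := by linarith
        rcases mul_eq_zero.mp h3 with h4 | h4
        · exact hne (by rw [← h2, h4])
        · exact (mul_pos p1 p1).ne' h4
  · rintro ⟨h0, h1⟩
    have hpos : ∀ n, 0 < C n := by
      intro n
      rw [per_mod hper (Nat.mod_modEq n 2).symm]
      rcases Nat.mod_two_eq_zero_or_one n with h | h <;> rw [h] <;> assumption
    refine perG_of_no_escape (by norm_num) hC hper ?_
    rintro ⟨P, Q, hP, hQ, ⟨n, hn⟩, hdis, hPQ, -⟩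
    have h2 : P (n + 1 + 3) := by
      rw [show n + 1 + 3 = n + 2 + 2 by ring, hP, hP]; exact hn
    have h3 := (hPQ (n + 1) h2).2 (hpos _)
    rw [show n + 1 + 1 = n + 2 by ring, hQ] at h3
    exact hdis n hn h3

theorem third_three {C : ℕ → ℝ} (hC : ∀ n, 0 ≤ C n) (hper : ∀ n, C (n + 3) = C n) :
    PerG 3 3 1 C := by
  refine perG_of_no_escape (by norm_num) hC hper ?_
  rintro ⟨P, Q, hP, hQ, ⟨n, hn⟩, hdis, hPQ, -⟩
  exact hdis n hn (hPQ n ((hP n).mpr hn)).1

theorem third_four {C : ℕ → ℝ} (hC : ∀ n, 0 ≤ C n) (hper : ∀ n, C (n + 4) = C n)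
    (hne : ∃ n, C n ≠ 0) :
    PerG 4 3 1 C ↔ (0 < C 0 ∨ 0 < C 2) ∧ (0 < C 1 ∨ 0 < C 3) := by
  constructor
  · rintro ⟨w, hw, hwk, h⟩
    have h0 := h 0 (by norm_num)
    have h1 := h 1 (by norm_num)
    have h2 := h 2 (by norm_num)
    have h3 := h 3 (by norm_num)
    have e4 : w 4 = w 0 := hwk 0
    have e5 : w 5 = w 1 := hwk 1
    have e6 : w 6 = w 2 := hwk 2
    norm_num [e4, e5, e6] at h0 h1 h2 h3
    have p0 := hw 0
    have p1 := hw 1
    have p2 := hw 2
    have p3 := hw 3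
    have c0 := hC 0
    have c1 := hC 1
    have c2 := hC 2
    have c3 := hC 3
    have hall : C 0 = 0 → C 1 = 0 → C 2 = 0 → C 3 = 0 → False := by
      intro a0 a1 a2 a3
      obtain ⟨n, hn⟩ := hne
      rw [per_mod hper (Nat.mod_modEq n 4).symm] at hn
      have h5 : n % 4 < 4 := Nat.mod_lt n (by norm_num)
      interval_cases h6 : n % 4 <;> contradiction
    constructor
    · by_contra hcon
      push Not at hcon
      have a0 : C 0 = 0 := le_antisymm hcon.1 c0
      have a2 : C 2 = 0 := le_antisymm hcon.2 c2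
      rw [a0] at h0
      rw [a2] at h2
      -- `w3 w0 = 1`, `w1 w2 = 1`
      have s0 : w 3 * w 0 = 1 := by linarith
      have s2 : w 1 * w 2 = 1 := by linarith
      have q1 : 0 ≤ C 1 * (w 0 * w 2) := by positivity
      have q3 : 0 ≤ C 3 * (w 0 * w 2) := by positivity
      have t1 : w 0 * w 1 = 1 - C 1 * (w 0 * w 2) := by linarith
      have t3 : w 2 * w 3 = 1 - C 3 * (w 0 * w 2) := by linarith
      have t4 : (w 0 * w 1) * (w 2 * w 3) = 1 := by
        calc (w 0 * w 1) * (w 2 * w 3) = (w 3 * w 0) * (w 1 * w 2) := by ring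
          _ = 1 := by rw [s0, s2]; norm_num
      have t5 : 0 < w 0 * w 1 := mul_pos p0 p1
      have t6 : 0 < w 2 * w 3 := mul_pos p2 p3
      rw [t1] at t4 t5
      rw [t3] at t4 t6
      have u1 : C 1 * (w 0 * w 2) = 0 := by nlinarith
      have u3 : C 3 * (w 0 * w 2) = 0 := by nlinarith
      have p02 : w 0 * w 2 ≠ 0 := (mul_pos p0 p2).ne'
      exact hall a0 ((mul_eq_zero.mp u1).resolve_right p02) a2
        ((mul_eq_zero.mp u3).resolve_right p02)
    · by_contra hcon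
      push Not at hcon
      have a1 : C 1 = 0 := le_antisymm hcon.1 c1
      have a3 : C 3 = 0 := le_antisymm hcon.2 c3
      rw [a1] at h1
      rw [a3] at h3
      have s0 : w 0 * w 1 = 1 := by linarith
      have s2 : w 2 * w 3 = 1 := by linarith
      have q1 : 0 ≤ C 0 * (w 1 * w 3) := by positivity
      have q3 : 0 ≤ C 2 * (w 1 * w 3) := by positivity
      have t1 : w 3 * w 0 = 1 - C 0 * (w 1 * w 3) := by linarith
      have t3 : w 1 * w 2 = 1 - C 2 * (w 1 * w 3) := by linarith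
      have t4 : (w 3 * w 0) * (w 1 * w 2) = 1 := by
        calc (w 3 * w 0) * (w 1 * w 2) = (w 0 * w 1) * (w 2 * w 3) := by ring
          _ = 1 := by rw [s0, s2]; norm_num
      have t5 : 0 < w 3 * w 0 := mul_pos p3 p0
      have t6 : 0 < w 1 * w 2 := mul_pos p1 p2
      rw [t1] at t4 t5
      rw [t3] at t4 t6
      have u1 : C 0 * (w 1 * w 3) = 0 := by nlinarith
      have u3 : C 2 * (w 1 * w 3) = 0 := by nlinarith
      have p02 : w 1 * w 3 ≠ 0 := (mul_pos p1 p3).ne'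
      exact hall ((mul_eq_zero.mp u1).resolve_right p02) a1
        ((mul_eq_zero.mp u3).resolve_right p02) a3
  · rintro ⟨h02, h13⟩
    refine perG_of_no_escape (by norm_num) hC hper ?_
    rintro ⟨P, Q, hP, hQ, ⟨v, hv⟩, hdis, hPQ, hQP⟩
    -- `P v → Q (v+1)`
    have A : ∀ v, P v → Q (v + 1) ∧ (0 < C (v + 1) → Q (v + 2)) := by
      intro v hv
      have h1 : P (v + 1 + 3) := by rw [show v + 1 + 3 = v + 4 by ring, hP]; exact hv
      have := hPQ (v + 1) h1
      exact this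
    have Bq : ∀ v, Q v → P (v + 1) ∨ (0 < C (v + 1) ∧ P (v + 2)) := by
      intro v hv
      have h1 : Q (v + 1 + 3) := by rw [show v + 1 + 3 = v + 4 by ring, hQ]; exact hv
      exact hQP (v + 1) h1
    have h1 := (A v hv).1
    have h2 : P (v + 2) := by
      rcases Bq _ h1 with h3 | ⟨_, h3⟩
      · exact h3
      · exfalso
        have h4 := (A _ h3).1
        rw [show v + 1 + 2 + 1 = v + 4 by ring, hQ] at h4
        exact hdis v hv h4
    have z1 : ¬ 0 < C (v + 1) := fun hc => hdis _ h2 ((A v hv).2 hc)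
    have z3 : ¬ 0 < C (v + 3) := fun hc => by
      have h4 := (A _ h2).2 hc
      rw [show v + 2 + 2 = v + 4 by ring, hQ] at h4
      exact hdis v hv h4
    have hm : ∀ a b : ℕ, a ≡ b [MOD 4] → C a = C b := fun a b h => per_mod hper h
    rcases Nat.even_or_odd' v with ⟨j, rfl | rfl⟩
    · -- v even: `C 1 = C 3 = 0`
      rcases Nat.even_or_odd' j with ⟨i, rfl | rfl⟩
      · rw [hm _ 1 (by unfold Nat.ModEq; omega)] at z1
        rw [hm _ 3 (by unfold Nat.ModEq; omega)] at z3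
        rcases h13 with h | h
        · exact z1 h
        · exact z3 h
      · rw [hm _ 3 (by unfold Nat.ModEq; omega)] at z1
        rw [hm _ 1 (by unfold Nat.ModEq; omega)] at z3
        rcases h13 with h | h
        · exact z3 h
        · exact z1 h
    · rcases Nat.even_or_odd' j with ⟨i, rfl | rfl⟩
      · rw [hm _ 2 (by unfold Nat.ModEq; omega)] at z1
        rw [hm _ 0 (by unfold Nat.ModEq; omega)] at z3
        rcases h02 with h | h
        · exact z3 h
        · exact z1 h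
      · rw [hm _ 0 (by unfold Nat.ModEq; omega)] at z1
        rw [hm _ 2 (by unfold Nat.ModEq; omega)] at z3
        rcases h02 with h | h
        · exact z1 h
        · exact z3 h

/-- The five numbers of the period five criterion. -/
noncomputable def D5 (C : ℕ → ℝ) (i : ℕ) : ℝ :=
  1 - C i + C i * C (i + 3) - C i * C (i + 3) * C (i + 1) +
    C i * C (i + 3) * C (i + 1) * C (i + 4)

theorem third_five {C : ℕ → ℝ} (hC : ∀ n, 0 ≤ C n) (hper : ∀ n, C (n + 5) = C n) :
    PerG 5 3 1 C ↔ ∀ i < 5, 0 < D5 C i := by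
  have c5 : C 5 = C 0 := hper 0
  have c6 : C 6 = C 1 := hper 1
  have c7 : C 7 = C 2 := hper 2
  have c8 : C 8 = C 3 := hper 3
  have d0 : D5 C 0 = 1 - C 0 + C 0 * C 3 - C 0 * C 3 * C 1 + C 0 * C 3 * C 1 * C 4 := rfl
  have d1 : D5 C 1 = 1 - C 1 + C 1 * C 4 - C 1 * C 4 * C 2 + C 1 * C 4 * C 2 * C 0 := by
    unfold D5; norm_num [c5]
  have d2 : D5 C 2 = 1 - C 2 + C 2 * C 0 - C 2 * C 0 * C 3 + C 2 * C 0 * C 3 * C 1 := by
    unfold D5; norm_num [c5, c6]
  have d3 : D5 C 3 = 1 - C 3 + C 3 * C 1 - C 3 * C 1 * C 4 + C 3 * C 1 * C 4 * C 2 := by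
    unfold D5; norm_num [c6, c7]
  have d4 : D5 C 4 = 1 - C 4 + C 4 * C 2 - C 4 * C 2 * C 0 + C 4 * C 2 * C 0 * C 3 := by
    unfold D5; norm_num [c7, c5, c8]
  have hP : 0 < 1 + C 0 * C 1 * C 2 * C 3 * C 4 := by
    have := mul_nonneg (mul_nonneg (mul_nonneg (mul_nonneg (hC 0) (hC 1)) (hC 2)) (hC 3)) (hC 4)
    linarith
  constructor
  · rintro ⟨w, hw, hwk, h⟩
    have e5 : w 5 = w 0 := hwk 0
    have e6 : w 6 = w 1 := hwk 1
    have e7 : w 7 = w 2 := hwk 2
    have h0 := h 0 (by norm_num)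
    have h1 := h 1 (by norm_num)
    have h2 := h 2 (by norm_num)
    have h3 := h 3 (by norm_num)
    have h4 := h 4 (by norm_num)
    norm_num [e5, e6, e7] at h0 h1 h2 h3 h4
    -- products
    have a3 : w 3 * w 0 = 1 - C 0 * (w 1 * w 3) := by linarith
    have a4 : w 4 * w 1 = 1 - C 1 * (w 2 * w 4) := by linarith
    have a0 : w 0 * w 2 = 1 - C 2 * (w 3 * w 0) := by linarith
    have a1 : w 1 * w 3 = 1 - C 3 * (w 4 * w 1) := by linarith
    have a2 : w 2 * w 4 = 1 - C 4 * (w 0 * w 2) := by linarith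
    intro i hi
    have hgen : ∀ i, i < 5 → ∃ t, 0 < t ∧ D5 C i = t * (1 + C 0 * C 1 * C 2 * C 3 * C 4) := by
      intro i hi
      interval_cases i
      · refine ⟨w 3 * w 0, mul_pos (hw 3) (hw 0), ?_⟩
        rw [d0]
        have : w 3 * w 0 = 1 - C 0 * (1 - C 3 * (1 - C 1 * (1 - C 4 * (1 - C 2 * (w 3 * w 0))))) := by
          rw [← a0, ← a2, ← a4, ← a1, ← a3]
        linear_combination (-1 : ℝ) * this
      · refine ⟨w 4 * w 1, mul_pos (hw 4) (hw 1), ?_⟩
        rw [d1]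
        have : w 4 * w 1 = 1 - C 1 * (1 - C 4 * (1 - C 2 * (1 - C 0 * (1 - C 3 * (w 4 * w 1))))) := by
          rw [← a1, ← a3, ← a0, ← a2, ← a4]
        linear_combination (-1 : ℝ) * this
      · refine ⟨w 0 * w 2, mul_pos (hw 0) (hw 2), ?_⟩
        rw [d2]
        have : w 0 * w 2 = 1 - C 2 * (1 - C 0 * (1 - C 3 * (1 - C 1 * (1 - C 4 * (w 0 * w 2))))) := by
          rw [← a2, ← a4, ← a1, ← a3, ← a0]
        linear_combination (-1 : ℝ) * this
      · refine ⟨w 1 * w 3, mul_pos (hw 1) (hw 3), ?_⟩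
        rw [d3]
        have : w 1 * w 3 = 1 - C 3 * (1 - C 1 * (1 - C 4 * (1 - C 2 * (1 - C 0 * (w 1 * w 3))))) := by
          rw [← a3, ← a0, ← a2, ← a4, ← a1]
        linear_combination (-1 : ℝ) * this
      · refine ⟨w 2 * w 4, mul_pos (hw 2) (hw 4), ?_⟩
        rw [d4]
        have : w 2 * w 4 = 1 - C 4 * (1 - C 2 * (1 - C 0 * (1 - C 3 * (1 - C 1 * (w 2 * w 4))))) := by
          rw [← a4, ← a1, ← a3, ← a0, ← a2]
        linear_combination (-1 : ℝ) * this
    obtain ⟨t, ht, e⟩ := hgen i hi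
    rw [e]
    exact mul_pos ht hP
  · intro h
    set R := 1 + C 0 * C 1 * C 2 * C 3 * C 4 with hR
    -- `p j = e (2 j)` where `e_{i+3} = D_i / R`: `e_0 = D_2/R, e_2 = D_4/R, e_4 = D_1/R, e_1 = D_3/R, e_3 = D_0/R`
    let p : ℕ → ℝ := fun j => D5 C ((2 * j + 2) % 5) / R
    have hp0 : ∀ j, 0 < p j := fun j => div_pos (h _ (Nat.mod_lt _ (by norm_num))) hP
    have hpk : ∀ j, p (j + 5) = p j := by
      intro j
      show D5 C ((2 * (j + 5) + 2) % 5) / R = D5 C ((2 * j + 2) % 5) / R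
      rw [show (2 * (j + 5) + 2) % 5 = (2 * j + 2) % 5 by omega]
    obtain ⟨v, hv, hvk, hvq⟩ := (exists_products hp0 hpk).mpr (fun he => absurd he (by decide))
    refine ⟨fun n => v (3 * n), fun n => hv _, fun n => ?_, ?_⟩
    · show v (3 * (n + 5)) = v (3 * n)
      exact per_mod hvk (by unfold Nat.ModEq; omega)
    · have hv' : ∀ n, v (3 * n) * v (3 * (n + 2)) = p (3 * n) := by
        intro n
        rw [← hvq, per_mod hvk (show 3 * (n + 2) ≡ 3 * n + 1 [MOD 5] by unfold Nat.ModEq; omega)]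
      have hpn : ∀ n, p (3 * n) = D5 C ((n + 2) % 5) / R := by
        intro n
        show D5 C ((2 * (3 * n) + 2) % 5) / R = _
        rw [show (2 * (3 * n) + 2) % 5 = (n + 2) % 5 by omega]
      intro n hn
      show v (3 * (n + 3)) * (C n * v (3 * (n + 1)) + v (3 * n)) = 1
      have q1 : v (3 * (n + 1)) * v (3 * (n + 3)) = D5 C ((n + 3) % 5) / R := by
        have := hv' (n + 1)
        rw [hpn] at this
        exact this
      have q2 : v (3 * (n + 3)) * v (3 * n) = D5 C (n % 5) / R := by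
        have h5 := hv' (n + 3)
        rw [hpn] at h5
        rw [per_mod hvk (show 3 * (n + 3 + 2) ≡ 3 * n [MOD 5] by unfold Nat.ModEq; omega)] at h5
        rw [h5, show (n + 3 + 2) % 5 = n % 5 by omega]
      have q3 : C n * D5 C ((n + 3) % 5) + D5 C (n % 5) = R := by
        interval_cases n
        · show C 0 * D5 C 3 + D5 C 0 = R
          rw [d3, d0, hR]; ring
        · show C 1 * D5 C 4 + D5 C 1 = R
          rw [d4, d1, hR]; ring
        · show C 2 * D5 C 0 + D5 C 2 = R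
          rw [d0, d2, hR]; ring
        · show C 3 * D5 C 1 + D5 C 3 = R
          rw [d1, d3, hR]; ring
        · show C 4 * D5 C 2 + D5 C 4 = R
          rw [d2, d4, hR]; ring
      calc v (3 * (n + 3)) * (C n * v (3 * (n + 1)) + v (3 * n))
          = C n * (v (3 * (n + 1)) * v (3 * (n + 3))) + v (3 * (n + 3)) * v (3 * n) := by ring
        _ = (C n * D5 C ((n + 3) % 5) + D5 C (n % 5)) / R := by rw [q1, q2]; ring
        _ = 1 := by rw [q3]; exact div_self hP.ne'

end Q201.PR
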