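import Mathlib

/-!
# Solvability from the tropical system

The system `x_v (β_v x_{b v} + x_{a v}) = 1` has a positive solution as soon as the tropical system
`w_v = - max (w_{b v}, w_{a v})` (only `w_{a v}` if `β_v = 0`) has only the solution zero.
-/

set_option autoImplicit false

namespace Q201.PR

open Filter Topology

variable {V : Type*}

/-- The tropical form. -/
noncomputable def trop (a b : V → V) (β : V → ℝ) (w : V → ℝ) (v : V) : ℝ :=
  if 0 < β v then max (w (b v)) (w (a v)) else w (a v)

theorem trop_smul (a b : V → V) (β : V → ℝ) (w : V → ℝ) (v : V) {t : ℝ} (ht : 0 ≤ t) :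
    trop a b β (t • w) v = t * trop a b β w v := by
  unfold trop
  split_ifs
  · simp only [Pi.smul_apply, smul_eq_mul]
    rw [mul_max_of_nonneg _ _ ht]
  · simp

theorem trop_cont (a b : V → V) (β : V → ℝ) (v : V) : Continuous fun w => trop a b β w v := by
  unfold trop
  split_ifs
  · exact (continuous_apply _).max (continuous_apply _)
  · exact continuous_apply _

/-- The logarithmic map. -/
noncomputable def lmap (a b : V → V) (β : V → ℝ) (y : V → ℝ) (v : V) : ℝ :=
  -Real.log (β v * Real.exp (y (b v)) + Real.exp (y (a v)))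

theorem lmap_pos {a b : V → V} {β : V → ℝ} (hβ : ∀ v, 0 ≤ β v) (y : V → ℝ) (v : V) :
    0 < β v * Real.exp (y (b v)) + Real.exp (y (a v)) := by
  have h1 := Real.exp_pos (y (a v))
  have h2 := mul_nonneg (hβ v) (Real.exp_pos (y (b v))).le
  linarith

theorem lmap_le [Fintype V] {a b : V → V} {β : V → ℝ} (hβ : ∀ v, 0 ≤ β v) (y z : V → ℝ) (v : V) :
    lmap a b β y v ≤ lmap a b β z v + dist y z := by
  unfold lmap
  have h1 := lmap_pos (a := a) (b := b) hβ z v
  have h2 := lmap_pos (a := a) (b := b) hβ y v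
  have h4 : ∀ u, z u ≤ dist y z + y u := by
    intro u
    have := dist_le_pi_dist y z u
    rw [Real.dist_eq] at this
    have := neg_abs_le (y u - z u)
    linarith
  have h3 : β v * Real.exp (z (b v)) + Real.exp (z (a v)) ≤
      Real.exp (dist y z) * (β v * Real.exp (y (b v)) + Real.exp (y (a v))) := by
    have e1 := Real.exp_le_exp.mpr (h4 (b v))
    have e2 := Real.exp_le_exp.mpr (h4 (a v))
    rw [Real.exp_add] at e1 e2
    have e3 := mul_le_mul_of_nonneg_left e1 (hβ v)
    linarith
  have h5 := Real.log_le_log h1 h3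
  rw [Real.log_mul (Real.exp_pos _).ne' h2.ne', Real.log_exp] at h5
  linarith

theorem lmap_lip [Fintype V] {a b : V → V} {β : V → ℝ} (hβ : ∀ v, 0 ≤ β v) :
    LipschitzWith 1 (lmap a b β) := by
  refine LipschitzWith.of_dist_le_mul fun y z => ?_
  rw [NNReal.coe_one, one_mul, dist_pi_le_iff dist_nonneg]
  intro v
  rw [Real.dist_eq, abs_le]
  have h1 := lmap_le (a := a) (b := b) hβ y z v
  have h2 := lmap_le (a := a) (b := b) hβ z y v
  rw [dist_comm z y] at h2
  constructor <;> linarith

/-- Bound for the difference from the tropical form. -/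
noncomputable def cst (β : V → ℝ) (v : V) : ℝ := |Real.log (min (β v) 1)| + Real.log (β v + 1)

theorem lmap_trop {a b : V → V} {β : V → ℝ} (hβ : ∀ v, 0 ≤ β v) (y : V → ℝ) (v : V) :
    |lmap a b β y v + trop a b β y v| ≤ cst β v := by
  have hlog : 0 ≤ Real.log (β v + 1) := Real.log_nonneg (by have := hβ v; linarith)
  unfold lmap trop cst
  by_cases h : 0 < β v
  · rw [if_pos h]
    set m := max (y (b v)) (y (a v))
    have hm1 : y (b v) ≤ m := le_max_left _ _
    have hm2 : y (a v) ≤ m := le_max_right _ _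
    have hup : β v * Real.exp (y (b v)) + Real.exp (y (a v)) ≤ (β v + 1) * Real.exp m := by
      have e1 := mul_le_mul_of_nonneg_left (Real.exp_le_exp.mpr hm1) (hβ v)
      have e2 := Real.exp_le_exp.mpr hm2
      linarith
    have hmin : 0 < min (β v) 1 := lt_min h one_pos
    have hlow : min (β v) 1 * Real.exp m ≤ β v * Real.exp (y (b v)) + Real.exp (y (a v)) := by
      rcases max_cases (y (b v)) (y (a v)) with ⟨e, _⟩ | ⟨e, _⟩
      · have : m = y (b v) := e
        rw [this]
        have e1 := mul_le_mul_of_nonneg_right (min_le_left (β v) 1) (Real.exp_pos (y (b v))).le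
        have e2 := Real.exp_pos (y (a v))
        linarith
      · have : m = y (a v) := e
        rw [this]
        have e1 := mul_le_mul_of_nonneg_right (min_le_right (β v) 1) (Real.exp_pos (y (a v))).le
        have e2 := mul_nonneg (hβ v) (Real.exp_pos (y (b v))).le
        linarith
    have hp := lmap_pos (a := a) (b := b) hβ y v
    have l1 := Real.log_le_log hp hup
    rw [Real.log_mul (by linarith) (Real.exp_pos _).ne', Real.log_exp] at l1
    have l2 := Real.log_le_log (by positivity) hlow
    rw [Real.log_mul hmin.ne' (Real.exp_pos _).ne', Real.log_exp] at l2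
    have l3 := neg_abs_le (Real.log (min (β v) 1))
    have l4 := abs_nonneg (Real.log (min (β v) 1))
    rw [abs_le]
    constructor <;> linarith
  · have h0 : β v = 0 := le_antisymm (not_lt.mp h) (hβ v)
    rw [if_neg h, h0]
    simp

/-- **Only the zero tropical solution: the system is solvable.** -/
theorem solvable_of_trop [Fintype V] {a b : V → V} {β : V → ℝ} (hβ : ∀ v, 0 ≤ β v)
    (h0 : ∀ w : V → ℝ, (∀ v, w v = -trop a b β w v) → w = 0) :
    ∃ x : V → ℝ, (∀ v, 0 < x v) ∧ ∀ v, x v * (β v * x (b v) + x (a v)) = 1 := by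
  have hF := lmap_lip (a := a) (b := b) hβ
  set F := lmap a b β with hFdef
  let c : ℕ → NNReal := fun j => 1 - 1 / ((j : NNReal) + 2)
  have hclt : ∀ j, c j < 1 := by
    intro j
    have h1 : (0 : NNReal) < 1 / ((j : NNReal) + 2) := by positivity
    exact tsub_lt_self one_pos h1
  have hcle : ∀ j, (1 : NNReal) / ((j : NNReal) + 2) ≤ 1 := by
    intro j
    rw [div_le_one (by positivity)]
    calc (1 : NNReal) ≤ 2 := by norm_num
      _ ≤ (j : NNReal) + 2 := le_add_self
  have hcr : ∀ j, ((c j : NNReal) : ℝ) = 1 - 1 / ((j : ℝ) + 2) := by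
    intro j
    show (((1 : NNReal) - 1 / ((j : NNReal) + 2) : NNReal) : ℝ) = _
    rw [NNReal.coe_sub (hcle j)]
    push_cast
    ring
  have hclim : Tendsto (fun j => ((c j : NNReal) : ℝ)) atTop (𝓝 1) := by
    have h3 : Tendsto (fun j : ℕ => (1 : ℝ) - 1 / ((j : ℝ) + 2)) atTop (𝓝 (1 - 0)) := by
      refine tendsto_const_nhds.sub ?_
      have h4 : Tendsto (fun j : ℕ => ((j : ℝ) + 2)) atTop atTop :=
        tendsto_atTop_add_const_right _ _ tendsto_natCast_atTop_atTop
      exact (tendsto_inv_atTop_zero.comp h4).congr (fun j => by simp)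
    rw [sub_zero] at h3
    exact h3.congr (fun j => (hcr j).symm)
  have hG : ∀ j, ContractingWith (c j) (fun y => (c j : ℝ) • F y) := by
    intro j
    refine ⟨hclt j, LipschitzWith.of_dist_le_mul fun y z => ?_⟩
    rw [dist_smul₀]
    have h1 := hF.dist_le_mul y z
    simp only [NNReal.coe_one, one_mul] at h1
    have h2 : ‖((c j : NNReal) : ℝ)‖ = (c j : ℝ) := by
      rw [Real.norm_eq_abs, abs_of_nonneg (NNReal.coe_nonneg _)]
    rw [h2]
    exact mul_le_mul_of_nonneg_left h1 (NNReal.coe_nonneg _)
  choose y hy using fun j => (show ∃ y, (fun y => (c j : ℝ) • F y) y = y from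
    ⟨_, (hG j).fixedPoint_isFixedPt⟩)
  have hfix : ∃ z, F z = z := by
    by_cases hb : ∃ R, ∀ j, ∃ i ≥ j, ‖y i‖ ≤ R
    · obtain ⟨R, hR⟩ := hb
      obtain ⟨ψ, hψ, hψR⟩ := Filter.extraction_of_frequently_atTop
        (P := fun i => ‖y i‖ ≤ R) (Filter.frequently_atTop.mpr hR)
      obtain ⟨z, _, φ, hφ, hz⟩ := (isCompact_closedBall (0 : V → ℝ) R).tendsto_subseq
        (x := fun j => y (ψ j)) (fun j => by simpa using hψR j)
      have hm : Tendsto (fun j => ψ (φ j)) atTop atTop := hψ.tendsto_atTop.comp hφ.tendsto_atTop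
      have h1 : Tendsto (fun j => F (y (ψ (φ j)))) atTop (𝓝 (F z)) :=
        (hF.continuous.tendsto z).comp hz
      have h5 : Tendsto (fun j => ((c (ψ (φ j)) : NNReal) : ℝ) • F (y (ψ (φ j)))) atTop
          (𝓝 ((1 : ℝ) • F z)) := (hclim.comp hm).smul h1
      have h6 : (fun j => ((c (ψ (φ j)) : NNReal) : ℝ) • F (y (ψ (φ j)))) =
          fun j => y (ψ (φ j)) := by
        funext j
        exact hy _
      rw [h6, one_smul] at h5
      exact ⟨z, tendsto_nhds_unique h5 hz⟩
    · exfalso
      push Not at hb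
      have hinf : Tendsto (fun j => ‖y j‖) atTop atTop := by
        rw [tendsto_atTop]
        intro R
        obtain ⟨j, hj⟩ := hb R
        exact eventually_atTop.mpr ⟨j, fun i hi => (hj i hi).le⟩
      -- normalised vectors
      obtain ⟨z, _, φ, hφ, hz⟩ := (isCompact_closedBall (0 : V → ℝ) 1).tendsto_subseq
        (x := fun j => (‖y j‖)⁻¹ • y j) (fun j => by
          rw [mem_closedBall_zero_iff, norm_smul, norm_inv, norm_norm]
          rcases eq_or_ne ‖y j‖ 0 with e | e
          · rw [e]; simp
          · rw [inv_mul_cancel₀ e])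
      have hz1 : ‖z‖ = 1 := by
        have h1 : Tendsto (fun j => ‖(‖y (φ j)‖)⁻¹ • y (φ j)‖) atTop (𝓝 ‖z‖) := hz.norm
        have h2 : Tendsto (fun j => ‖(‖y (φ j)‖)⁻¹ • y (φ j)‖) atTop (𝓝 1) := by
          refine tendsto_const_nhds.congr' ?_
          have h3 := (hinf.comp hφ.tendsto_atTop).eventually_gt_atTop 0
          filter_upwards [h3] with j hj
          simp only [Function.comp_apply] at hj
          rw [norm_smul, norm_inv, norm_norm, inv_mul_cancel₀ hj.ne']
        exact tendsto_nhds_unique h1 h2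
      have hz0 : z = 0 := by
        refine h0 z fun v => ?_
        have h1 : Tendsto (fun j => ((‖y (φ j)‖)⁻¹ • y (φ j)) v +
            ((c (φ j) : NNReal) : ℝ) * trop a b β ((‖y (φ j)‖)⁻¹ • y (φ j)) v) atTop
            (𝓝 (z v + 1 * trop a b β z v)) := by
          refine Tendsto.add ?_ ?_
          · exact ((continuous_apply v).tendsto z).comp hz
          · refine (hclim.comp hφ.tendsto_atTop).mul ?_
            exact ((trop_cont a b β v).tendsto z).comp hz
        have h2 : Tendsto (fun j => ((‖y (φ j)‖)⁻¹ • y (φ j)) v +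
            ((c (φ j) : NNReal) : ℝ) * trop a b β ((‖y (φ j)‖)⁻¹ • y (φ j)) v) atTop (𝓝 0) := by
          rw [tendsto_zero_iff_abs_tendsto_zero]
          have h3 : Tendsto (fun j => (‖y (φ j)‖)⁻¹ * cst β v) atTop (𝓝 (0 * cst β v)) :=
            (tendsto_inv_atTop_zero.comp (hinf.comp hφ.tendsto_atTop)).mul_const _
          rw [zero_mul] at h3
          refine squeeze_zero (fun j => abs_nonneg _) (fun j => ?_) h3
          have hn : 0 ≤ (‖y (φ j)‖)⁻¹ := by positivity
          have e1 : y (φ j) v = ((c (φ j) : NNReal) : ℝ) * F (y (φ j)) v := by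
            have := congrFun (hy (φ j)) v
            simpa using this.symm
          have e2 : ((‖y (φ j)‖)⁻¹ • y (φ j)) v +
              ((c (φ j) : NNReal) : ℝ) * trop a b β ((‖y (φ j)‖)⁻¹ • y (φ j)) v =
              (‖y (φ j)‖)⁻¹ * (((c (φ j) : NNReal) : ℝ) *
                (F (y (φ j)) v + trop a b β (y (φ j)) v)) := by
            rw [trop_smul _ _ _ _ _ hn, Pi.smul_apply, smul_eq_mul]
            conv_lhs => rw [e1]
            ring
          show |((‖y (φ j)‖)⁻¹ • y (φ j)) v +
              ((c (φ j) : NNReal) : ℝ) * trop a b β ((‖y (φ j)‖)⁻¹ • y (φ j)) v| ≤ _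
          rw [e2, abs_mul, abs_of_nonneg hn]
          refine mul_le_mul_of_nonneg_left ?_ hn
          rw [abs_mul, abs_of_nonneg (NNReal.coe_nonneg _)]
          have h4 := lmap_trop (a := a) (b := b) hβ (y (φ j)) v
          have h5 : ((c (φ j) : NNReal) : ℝ) ≤ 1 := by exact_mod_cast (hclt (φ j)).le
          calc ((c (φ j) : NNReal) : ℝ) * |F (y (φ j)) v + trop a b β (y (φ j)) v|
              ≤ 1 * |F (y (φ j)) v + trop a b β (y (φ j)) v| :=
                mul_le_mul_of_nonneg_right h5 (abs_nonneg _)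
            _ ≤ cst β v := by rw [one_mul]; exact h4
        have h3 := tendsto_nhds_unique h1 h2
        linarith
      rw [hz0, norm_zero] at hz1
      exact zero_ne_one hz1
  obtain ⟨z, hz⟩ := hfix
  refine ⟨fun v => Real.exp (z v), fun v => Real.exp_pos _, fun v => ?_⟩
  have h1 : z v = -Real.log (β v * Real.exp (z (b v)) + Real.exp (z (a v))) := (congrFun hz v).symm
  have h2 := lmap_pos (a := a) (b := b) hβ z v
  show Real.exp (z v) * (β v * Real.exp (z (b v)) + Real.exp (z (a v))) = 1
  have h3 : Real.exp (z v) = (β v * Real.exp (z (b v)) + Real.exp (z (a v)))⁻¹ := by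
    rw [h1, Real.exp_neg, Real.exp_log h2]
  rw [h3, inv_mul_cancel₀ h2.ne']

end Q201.PR
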