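import Pool.Agent.Q201.PR.Trop
import Pool.Agent.Q201.PR.Lag

/-!
# The tropical criterion for periodic systems
-/

set_option autoImplicit false

namespace Q201.PR

/-- The `k` equations `w_{n+c} (B_n w_{n+b} + w_n) = 1`. -/
def PerG (k c b : ℕ) (B : ℕ → ℝ) : Prop :=
  ∃ w : ℕ → ℝ, (∀ n, 0 < w n) ∧ (∀ n, w (n + k) = w n) ∧
    ∀ n < k, w (n + c) * (B n * w (n + b) + w n) = 1

/-- The tropical system has only the zero solution of period `k`. -/
def TropG (k c b : ℕ) (B : ℕ → ℝ) : Prop :=
  ∀ w : ℕ → ℝ, (∀ n, w (n + k) = w n) →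
    (∀ n, w (n + c) = -(if 0 < B n then max (w (n + b)) (w n) else w n)) → ∀ n, w n = 0

theorem perG_of_trop {k c b : ℕ} (hk : 0 < k) {B : ℕ → ℝ} (hB : ∀ n, 0 ≤ B n)
    (hper : ∀ n, B (n + k) = B n) (h : TropG k c b B) : PerG k c b B := by
  have : NeZero k := ⟨hk.ne'⟩
  let a' : ZMod k → ZMod k := fun v => v - c
  let b' : ZMod k → ZMod k := fun v => v - c + b
  let β : ZMod k → ℝ := fun v => B ((v - c).val)
  have hβ : ∀ v, 0 ≤ β v := fun v => hB _
  have hval : ∀ n : ℕ, B ((n : ZMod k).val) = B n := by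
    intro n
    rw [ZMod.val_natCast]
    exact per_mod hper (Nat.mod_modEq n k)
  have hcast : ∀ n : ℕ, ((n + k : ℕ) : ZMod k) = (n : ZMod k) := by
    intro n
    simp
  have key : ∀ w : ZMod k → ℝ, (∀ v, w v = -trop a' b' β w v) → w = 0 := by
    intro w hw
    have h1 := h (fun n => w (n : ZMod k)) (fun n => by simp only [hcast]) (fun n => by
      have h2 := hw ((n + c : ℕ) : ZMod k)
      have e1 : (((n + c : ℕ) : ZMod k) - (c : ZMod k)) = (n : ZMod k) := by
        push_cast; ring
      have e2 : (((n + c : ℕ) : ZMod k) - (c : ZMod k)) + (b : ZMod k) = ((n + b : ℕ) : ZMod k) := by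
        push_cast; ring
      simp only [trop, a', b', β, e1, hval] at h2
      rw [h2]
      have e3 : (n : ZMod k) + (b : ZMod k) = ((n + b : ℕ) : ZMod k) := by push_cast; ring
      rw [e3])
    funext v
    have h3 := h1 v.val
    simpa using h3
  obtain ⟨x, hx, hq⟩ := solvable_of_trop (a := a') (b := b') hβ key
  refine ⟨fun n => x (n : ZMod k), fun n => hx _, fun n => by simp only [hcast], fun n _ => ?_⟩
  have h2 := hq ((n + c : ℕ) : ZMod k)
  have e1 : (((n + c : ℕ) : ZMod k) - (c : ZMod k)) = (n : ZMod k) := by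
    push_cast; ring
  simp only [a', b', β, e1, hval] at h2
  have e3 : (n : ZMod k) + (b : ZMod k) = ((n + b : ℕ) : ZMod k) := by push_cast; ring
  rw [e3] at h2
  exact h2

/-- A pattern of very large values (`P`) and very small values (`Q`) which supports itself: a place
of `P` uses only places of `Q`, and a place of `Q` uses at least one place of `P`. -/
def Escape (k c b : ℕ) (B : ℕ → ℝ) : Prop :=
  ∃ P Q : ℕ → Prop, (∀ n, P (n + k) ↔ P n) ∧ (∀ n, Q (n + k) ↔ Q n) ∧ (∃ n, P n) ∧
    (∀ n, P n → ¬ Q n) ∧ (∀ n, P (n + c) → Q n ∧ (0 < B n → Q (n + b))) ∧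
    ∀ n, Q (n + c) → P n ∨ (0 < B n ∧ P (n + b))

theorem trop_of_no_escape {k c b : ℕ} (hk : 0 < k) {B : ℕ → ℝ} (h : ¬ Escape k c b B) :
    TropG k c b B := by
  intro w hw hq
  by_contra hcon
  push Not at hcon
  obtain ⟨n0, hn0⟩ := hcon
  have hmod : ∀ n, w n = w (n % k) := fun n => per_mod hw (Nat.mod_modEq n k).symm
  have hne : (Finset.range k).Nonempty := ⟨0, by simpa using hk⟩
  obtain ⟨j, hj, hmax⟩ := Finset.exists_max_image (Finset.range k) (fun n => |w n|) hne
  set m := |w j| with hm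
  have hle : ∀ n, |w n| ≤ m := by
    intro n
    rw [hmod n]
    exact hmax _ (Finset.mem_range.mpr (Nat.mod_lt n hk))
  have hm0 : 0 < m := (abs_pos.mpr hn0).trans_le (hle n0)
  -- every index is congruent to some `n + c`
  have hrep : ∀ v, ∃ n, n + c ≡ v [MOD k] := by
    intro v
    refine ⟨v + c * (k - 1), ?_⟩
    have e : v + c * (k - 1) + c = v + k * c := by
      obtain ⟨k', rfl⟩ : ∃ k', k = k' + 1 := ⟨k - 1, by omega⟩
      simp only [Nat.add_sub_cancel]
      ring
    rw [e]
    unfold Nat.ModEq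
    exact Nat.add_mul_mod_self_left v k c
  have hQP : ∀ n, w (n + c) = -m → w n = m ∨ (0 < B n ∧ w (n + b) = m) := by
    intro n hn
    have h1 := hq n
    rw [hn] at h1
    by_cases hb : 0 < B n
    · rw [if_pos hb] at h1
      have h2 : max (w (n + b)) (w n) = m := by linarith
      rcases max_cases (w (n + b)) (w n) with ⟨e, _⟩ | ⟨e, _⟩
      · exact Or.inr ⟨hb, by rw [← e, h2]⟩
      · exact Or.inl (by rw [← e, h2])
    · rw [if_neg hb] at h1
      exact Or.inl (by linarith)
  have hPQ : ∀ n, w (n + c) = m → w n = -m ∧ (0 < B n → w (n + b) = -m) := by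
    intro n hn
    have h1 := hq n
    rw [hn] at h1
    have a1 := (abs_le.mp (hle n)).1
    have a2 := (abs_le.mp (hle (n + b))).1
    by_cases hb : 0 < B n
    · rw [if_pos hb] at h1
      have h3 := le_max_left (w (n + b)) (w n)
      have h4 := le_max_right (w (n + b)) (w n)
      exact ⟨by linarith, fun _ => by linarith⟩
    · rw [if_neg hb] at h1
      exact ⟨by linarith, fun hb' => absurd hb' hb⟩
  have hex : ∃ n, w n = m := by
    rcases abs_cases (w j) with ⟨e, _⟩ | ⟨e, _⟩
    · exact ⟨j, by rw [hm, e]⟩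
    · obtain ⟨n, hn⟩ := hrep j
      have h1 : w (n + c) = -m := by
        rw [per_mod hw hn, hm, e]; ring
      rcases hQP n h1 with h2 | ⟨_, h2⟩
      · exact ⟨n, h2⟩
      · exact ⟨_, h2⟩
  exact h ⟨fun n => w n = m, fun n => w n = -m, fun n => by simp only [hw], fun n => by simp only [hw],
    hex, fun n h1 h2 => by
      have h1' : w n = m := h1
      have h2' : w n = -m := h2
      linarith, hPQ, hQP⟩

/-- **No escape pattern: the equations are solvable.** -/
theorem perG_of_no_escape {k c b : ℕ} (hk : 0 < k) {B : ℕ → ℝ} (hB : ∀ n, 0 ≤ B n)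
    (hper : ∀ n, B (n + k) = B n) (h : ¬ Escape k c b B) : PerG k c b B :=
  perG_of_trop hk hB hper (trop_of_no_escape hk h)

end Q201.PR
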